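import Pool.Agent.CYD.Defs

/-!
CYD, Cls: the classes of a finite set modulo `I * P`, for a set lying in one class modulo `I`.
-/

set_option autoImplicit false

namespace Pool.Agent.CYD

open NumberField Finset

variable (K : Type*) [Field K] [NumberField K]

theorem cls_index (I P : Ideal (𝓞 K)) (hI : I ≠ ⊥) :
    (Submodule.toAddSubgroup (I * P)).relIndex (Submodule.toAddSubgroup I) = Ideal.absNorm P := by
  have hle0 : I * P ≤ I := Ideal.mul_le_left
  have hle : Submodule.toAddSubgroup (I * P) ≤ Submodule.toAddSubgroup I :=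
    Submodule.toAddSubgroup_mono hle0
  have h := AddSubgroup.relIndex_mul_index hle
  have hI1 : (Submodule.toAddSubgroup I).index = Ideal.absNorm I := by
    rw [Ideal.absNorm_apply, Submodule.cardQuot_apply]
    rfl
  have hI2 : (Submodule.toAddSubgroup (I * P)).index = Ideal.absNorm (I * P) := by
    rw [Ideal.absNorm_apply, Submodule.cardQuot_apply]
    rfl
  rw [hI1, hI2, map_mul, mul_comm (Ideal.absNorm I)] at h
  have h0 : Ideal.absNorm I ≠ 0 := fun h => hI (Ideal.absNorm_eq_zero_iff.mp h)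
  exact Nat.eq_of_mul_eq_mul_right (Nat.pos_of_ne_zero h0) h

theorem cls (I P : Ideal (𝓞 K)) (hI : I ≠ ⊥) (hP : P ≠ ⊥) (S : Finset (𝓞 K))
    (hS : ∀ x ∈ S, ∀ y ∈ S, x - y ∈ I) :
    ∃ J : Finset (Finset (𝓞 K)), J.card ≤ Ideal.absNorm P ∧
      (∀ A ∈ J, A ⊆ S ∧ A.Nonempty ∧ ∀ x ∈ A, ∀ y ∈ A, x - y ∈ I * P) ∧
      (J : Set (Finset (𝓞 K))).PairwiseDisjoint id ∧
      (∀ x ∈ S, ∃ A ∈ J, x ∈ A) := by
  classical
  rcases S.eq_empty_or_nonempty with rfl | ⟨x0, hx0⟩
  · exact ⟨∅, by simp, by simp, by simp, by simp⟩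
  have hidx := cls_index K I P hI
  set Q := (Submodule.toAddSubgroup I) ⧸
    (Submodule.toAddSubgroup (I * P)).addSubgroupOf (Submodule.toAddSubgroup I) with hQ
  have hcard : Nat.card Q = Ideal.absNorm P := hidx
  have hP0 : Ideal.absNorm P ≠ 0 := fun h => hP (Ideal.absNorm_eq_zero_iff.mp h)
  have : Finite Q := Nat.finite_of_card_ne_zero (by rw [hcard]; exact hP0)
  let _ : Fintype Q := Fintype.ofFinite Q
  let g : 𝓞 K → Q := fun x =>
    if h : x - x0 ∈ Submodule.toAddSubgroup I then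
      (QuotientAddGroup.mk (⟨x - x0, h⟩ : Submodule.toAddSubgroup I) : Q) else 0
  have hmem : ∀ x ∈ S, x - x0 ∈ Submodule.toAddSubgroup I := fun x hx => hS x hx x0 hx0
  have hg : ∀ x ∈ S, ∀ y ∈ S, g x = g y → x - y ∈ I * P := by
    intro x hx y hy hxy
    simp only [g, dif_pos (hmem x hx), dif_pos (hmem y hy)] at hxy
    have h1 := QuotientAddGroup.eq.mp hxy.symm
    rw [AddSubgroup.mem_addSubgroupOf] at h1
    have h2 : -(y - x0) + (x - x0) ∈ I * P := h1
    have h3 : -(y - x0) + (x - x0) = x - y := by ring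
    rwa [h3] at h2
  refine ⟨(S.image g).image (fun c => S.filter (fun y => g y = c)), ?_, ?_, ?_, ?_⟩
  · refine Finset.card_image_le.trans ?_
    rw [← hcard, Nat.card_eq_fintype_card]
    exact Finset.card_le_univ _
  · intro A hA
    obtain ⟨c, hc, rfl⟩ := Finset.mem_image.mp hA
    obtain ⟨x, hx, rfl⟩ := Finset.mem_image.mp hc
    refine ⟨Finset.filter_subset _ _, ⟨x, Finset.mem_filter.mpr ⟨hx, rfl⟩⟩, ?_⟩
    intro y hy z hz
    obtain ⟨hy1, hy2⟩ := Finset.mem_filter.mp hy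
    obtain ⟨hz1, hz2⟩ := Finset.mem_filter.mp hz
    exact hg y hy1 z hz1 (hy2.trans hz2.symm)
  · intro A hA B hB hAB
    obtain ⟨c, _, rfl⟩ := Finset.mem_image.mp (Finset.mem_coe.mp hA)
    obtain ⟨e, _, rfl⟩ := Finset.mem_image.mp (Finset.mem_coe.mp hB)
    refine Finset.disjoint_left.mpr ?_
    intro x hx1 hx2
    simp only [id_eq, Finset.mem_filter] at hx1 hx2
    refine hAB ?_
    have : c = e := hx1.2.symm.trans hx2.2
    rw [this]
  · intro x hx
    refine ⟨S.filter (fun y => g y = g x), ?_, Finset.mem_filter.mpr ⟨hx, rfl⟩⟩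
    exact Finset.mem_image.mpr ⟨g x, Finset.mem_image.mpr ⟨x, hx, rfl⟩, rfl⟩

end Pool.Agent.CYD
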