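import Pool.Agent.CYD.Defs

/-!
CYD, Cnt: the primes `P` with `v ∈ I * P` are few (Dedekind).
-/

set_option autoImplicit false

namespace Pool.Agent.CYD

open NumberField Finset

variable (K : Type*) [Field K] [NumberField K]

theorem cnt (I : Ideal (𝓞 K)) (hI : I ≠ ⊥) (v : 𝓞 K) (hv : v ≠ 0) (hvI : v ∈ I)
    (T : Finset (Ideal (𝓞 K))) (hT : ∀ P ∈ T, P.IsPrime ∧ P ≠ ⊥) (hT2 : ∀ P ∈ T, v ∈ I * P) :
    ∑ P ∈ T, Real.log (Ideal.absNorm P) ≤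
      Real.log (Ideal.absNorm (Ideal.span {v})) - Real.log (Ideal.absNorm I) := by
  obtain ⟨J, hJ⟩ : I ∣ Ideal.span {v} := Ideal.dvd_span_singleton.mpr hvI
  have hsv : Ideal.span {v} ≠ ⊥ := by
    simpa [Ideal.span_singleton_eq_bot] using hv
  have hJ0 : J ≠ ⊥ := by
    rintro rfl
    exact hsv (by rw [hJ]; exact Ideal.mul_bot I)
  have hPJ : ∀ P ∈ T, P ∣ J := by
    intro P hP
    have h1 : I * P ∣ I * J := by
      rw [← hJ]
      exact Ideal.dvd_span_singleton.mpr (hT2 P hP)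
    exact (mul_dvd_mul_iff_left hI).mp h1
  have hprod : ∏ P ∈ T, P ∣ J :=
    Finset.prod_primes_dvd J
      (fun P hP => (Ideal.prime_iff_isPrime (hT P hP).2).mpr (hT P hP).1) hPJ
  obtain ⟨Q, hQ⟩ := hprod
  have hn : ∀ A : Ideal (𝓞 K), A ≠ ⊥ → Ideal.absNorm A ≠ 0 := fun A hA =>
    fun h => hA (Ideal.absNorm_eq_zero_iff.mp h)
  have hQ0 : Q ≠ ⊥ := by
    rintro rfl
    exact hJ0 (by rw [hQ]; exact Ideal.mul_bot _)
  have e1 : (Ideal.absNorm (Ideal.span {v}) : ℝ)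
      = Ideal.absNorm I * ((∏ P ∈ T, (Ideal.absNorm P : ℝ)) * Ideal.absNorm Q) := by
    rw [hJ, hQ, map_mul, map_mul, map_prod]
    push_cast
    ring
  have hI1 : (Ideal.absNorm I : ℝ) ≠ 0 := Nat.cast_ne_zero.mpr (hn I hI)
  have hQ1 : (Ideal.absNorm Q : ℝ) ≠ 0 := Nat.cast_ne_zero.mpr (hn Q hQ0)
  have hT1 : ∀ P ∈ T, (Ideal.absNorm P : ℝ) ≠ 0 := fun P hP =>
    Nat.cast_ne_zero.mpr (hn P (hT P hP).2)
  have hT3 : (∏ P ∈ T, (Ideal.absNorm P : ℝ)) ≠ 0 := Finset.prod_ne_zero_iff.mpr hT1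
  rw [e1, Real.log_mul hI1 (mul_ne_zero hT3 hQ1), Real.log_mul hT3 hQ1, Real.log_prod hT1]
  have hQ2 : 0 ≤ Real.log (Ideal.absNorm Q : ℝ) :=
    Real.log_nonneg (by exact_mod_cast Nat.one_le_iff_ne_zero.mpr (hn Q hQ0))
  linarith

end Pool.Agent.CYD
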