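import Pool.Agent.CYD.Defs

/-!
CYD: the Jensen type inequality (tangent of `e ^ t / √(B - t)` and relative entropy).
-/

set_option autoImplicit false

namespace Pool.Agent.CYD

open NumberField Finset

theorem ent_tan (b u : ℝ) (hb : 0 < b) (hu : 0 < b - u) :
    (1 + u + u / (2 * b)) / √b ≤ Real.exp u / √(b - u) := by
  have h0 : Real.exp (u / b) * (b - u) ≤ b := by
    have h1 := Real.add_one_le_exp (-(u / b))
    have h2 : Real.exp (u / b) * Real.exp (-(u / b)) = 1 := by
      rw [← Real.exp_add, add_neg_cancel, Real.exp_zero]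
    have h3 : Real.exp (u / b) * (-(u / b) + 1) ≤ 1 := by
      have h7 := mul_le_mul_of_nonneg_left h1 (Real.exp_pos (u / b)).le
      rwa [h2] at h7
    have h4 : b - u = b * (-(u / b) + 1) := by
      field_simp
      ring
    calc Real.exp (u / b) * (b - u) = b * (Real.exp (u / b) * (-(u / b) + 1)) := by
          rw [h4]; ring
      _ ≤ b * 1 := mul_le_mul_of_nonneg_left h3 hb.le
      _ = b := mul_one b
  have h2 : Real.exp (u / (2 * b)) * √(b - u) ≤ √b := by
    have h5 := Real.sqrt_le_sqrt h0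
    rw [Real.sqrt_mul (Real.exp_pos _).le] at h5
    have h6 : √(Real.exp (u / b)) = Real.exp (u / (2 * b)) := by
      rw [Real.sqrt_eq_iff_mul_self_eq (Real.exp_pos _).le (Real.exp_pos _).le, ← Real.exp_add]
      congr 1
      field_simp
      ring
    rwa [h6] at h5
  have h3 : 1 + u + u / (2 * b) ≤ Real.exp u * Real.exp (u / (2 * b)) := by
    rw [← Real.exp_add]
    have := Real.add_one_le_exp (u + u / (2 * b))
    linarith
  have s1 : 0 < √b := Real.sqrt_pos.2 hb
  have s2 : 0 < √(b - u) := Real.sqrt_pos.2 hu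
  rw [div_le_div_iff₀ s1 s2]
  calc (1 + u + u / (2 * b)) * √(b - u) ≤ (Real.exp u * Real.exp (u / (2 * b))) * √(b - u) :=
        mul_le_mul_of_nonneg_right h3 s2.le
    _ = Real.exp u * (Real.exp (u / (2 * b)) * √(b - u)) := by ring
    _ ≤ Real.exp u * √b := mul_le_mul_of_nonneg_left h2 (Real.exp_pos _).le

theorem jensen {ι : Type*} (c B : ℝ) (hc : 0 ≤ c) (p : ℕ) (J : Finset ι) (hne : J.Nonempty)
    (hJ : J.card ≤ p) (k : ι → ℕ) (hk : ∀ j ∈ J, 1 ≤ k j)
    (hB : ∀ j ∈ J, 1 ≤ B - Real.log (k j)) :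
    p * hh c B ((∑ j ∈ J, (k j : ℝ)) / p) ≤ ∑ j ∈ J, hh c B (k j) := by
  set n : ℝ := ∑ j ∈ J, (k j : ℝ) with hn
  have hJ0 : 0 < J.card := Finset.card_pos.2 hne
  have hp : (0 : ℝ) < p := by exact_mod_cast (show 0 < p by omega)
  have hJp : (J.card : ℝ) ≤ p := by exact_mod_cast hJ
  have hkR : ∀ j ∈ J, (1 : ℝ) ≤ k j := fun j hj => by exact_mod_cast hk j hj
  have hkp : ∀ j ∈ J, (0 : ℝ) < k j := fun j hj => by linarith [hkR j hj]
  have hn0 : 0 < n := Finset.sum_pos hkp hne
  set x : ℝ := n / p with hx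
  have hx0 : 0 < x := div_pos hn0 hp
  have hpx : (p : ℝ) * x = n := by rw [hx]; field_simp
  -- the maximum
  obtain ⟨j0, hj0, hmax⟩ := Finset.exists_max_image J (fun j => (k j : ℝ)) hne
  have hxle : x ≤ k j0 := by
    rw [hx, div_le_iff₀ hp]
    calc n ≤ J.card • (k j0 : ℝ) := Finset.sum_le_card_nsmul J _ _ hmax
      _ = J.card * (k j0 : ℝ) := by rw [nsmul_eq_mul]
      _ ≤ p * (k j0 : ℝ) := mul_le_mul_of_nonneg_right hJp (hkp j0 hj0).le
      _ = k j0 * p := mul_comm _ _
  set b : ℝ := B - Real.log x with hb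
  have hb1 : 1 ≤ b := by
    have h1 := hB j0 hj0
    have h2 := Real.log_le_log hx0 hxle
    rw [hb]; linarith
  have hB0 : 0 < B := by
    have h1 := hB j0 hj0
    have h2 := Real.log_nonneg (hkR j0 hj0)
    linarith
  have sB : 0 < √B := Real.sqrt_pos.2 hB0
  have sb : 0 < √b := Real.sqrt_pos.2 (by linarith)
  -- the terms
  have term : ∀ j ∈ J, (c / √B) * (x / √b) * ((k j : ℝ) * (1 + (1 + 1 / (2 * b)) *
      (Real.log (k j) - Real.log x))) ≤ hh c B (k j) := by
    intro j hj
    set u : ℝ := Real.log (k j) - Real.log x with hu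
    have hbu : b - u = B - Real.log (k j) := by rw [hb, hu]; ring
    have hbu0 : 0 < b - u := by rw [hbu]; linarith [hB j hj]
    have h1 := ent_tan b u (by linarith) hbu0
    have h2 : Real.exp u * x = k j := by
      rw [hu, Real.exp_sub, Real.exp_log (hkp j hj), Real.exp_log hx0]
      field_simp
    have h3 : hh c B (k j) = (c / √B) * (k j) * (x * (Real.exp u / √(b - u))) := by
      unfold hh
      rw [hbu, Real.sqrt_mul hB0.le]
      have s3 : √(B - Real.log (k j)) ≠ 0 := by
        rw [← hbu]; exact (Real.sqrt_pos.2 hbu0).ne'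
      rw [← mul_div_assoc, mul_comm x, h2]
      field_simp
    rw [h3]
    have h4 : (c / √B) * (x / √b) * ((k j : ℝ) * (1 + (1 + 1 / (2 * b)) * u)) =
        (c / √B) * (k j) * (x * ((1 + u + u / (2 * b)) / √b)) := by
      ring
    rw [h4]
    refine mul_le_mul_of_nonneg_left ?_ ?_
    · exact mul_le_mul_of_nonneg_left h1 hx0.le
    · exact mul_nonneg (div_nonneg hc sB.le) (hkp j hj).le
  -- entropy
  have ent : 0 ≤ ∑ j ∈ J, (k j : ℝ) * (Real.log (k j) - Real.log x) := by
    have h1 : ∀ j ∈ J, (k j : ℝ) - x ≤ (k j : ℝ) * (Real.log (k j) - Real.log x) := by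
      intro j hj
      have h2 := Real.log_le_sub_one_of_pos (x := x / k j) (div_pos hx0 (hkp j hj))
      rw [Real.log_div hx0.ne' (hkp j hj).ne'] at h2
      have h3 : (k j : ℝ) * (1 - x / k j) ≤ (k j : ℝ) * (Real.log (k j) - Real.log x) :=
        mul_le_mul_of_nonneg_left (by linarith) (hkp j hj).le
      have h4 : (k j : ℝ) * (1 - x / k j) = k j - x := by
        have := (hkp j hj).ne'
        field_simp
      linarith
    refine le_trans ?_ (Finset.sum_le_sum h1)
    rw [Finset.sum_sub_distrib, Finset.sum_const, nsmul_eq_mul, ← hn, sub_nonneg, ← hpx]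
    exact mul_le_mul_of_nonneg_right hJp hx0.le
  have hsum : ∑ j ∈ J, (c / √B) * (x / √b) * ((k j : ℝ) * (1 + (1 + 1 / (2 * b)) *
      (Real.log (k j) - Real.log x))) = (c / √B) * (x / √b) * (n + (1 + 1 / (2 * b)) *
        ∑ j ∈ J, (k j : ℝ) * (Real.log (k j) - Real.log x)) := by
    rw [← Finset.mul_sum]
    congr 1
    rw [hn, Finset.mul_sum, ← Finset.sum_add_distrib]
    refine Finset.sum_congr rfl fun j _ => ?_
    ring
  have h5 : (p : ℝ) * hh c B x = (c / √B) * (x / √b) * n := by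
    unfold hh
    rw [← hb, Real.sqrt_mul hB0.le, ← hpx]
    field_simp
  have h6 : 0 ≤ (c / √B) * (x / √b) := by positivity
  have h7 : 0 ≤ (1 + 1 / (2 * b)) * ∑ j ∈ J, (k j : ℝ) * (Real.log (k j) - Real.log x) := by
    have : 0 < b := by linarith
    positivity
  calc (p : ℝ) * hh c B x = (c / √B) * (x / √b) * n := h5
    _ ≤ (c / √B) * (x / √b) * (n + (1 + 1 / (2 * b)) *
        ∑ j ∈ J, (k j : ℝ) * (Real.log (k j) - Real.log x)) :=
        mul_le_mul_of_nonneg_left (by linarith) h6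
    _ = _ := hsum.symm
    _ ≤ _ := Finset.sum_le_sum term

end Pool.Agent.CYD
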