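import Pool.Agent.CYD.Defs

/-!
CYD: from the ideal form (`Main2`) to points of the plane.
-/

set_option autoImplicit false

namespace Pool.Agent.CYD

open NumberField Finset

/-- the ideal form of the theorem, with the packing bound -/
def Main2 (K : Type*) [Field K] [NumberField K] [IsCMField K] : Prop :=
  ∃ c C₁ : ℝ, 0 < c ∧ 1 ≤ C₁ ∧ ∀ (M : ℝ) (I : Ideal (𝓞 K)), I ≠ ⊥ →
    ∀ S : Finset (𝓞 K), 2 ≤ S.card → (∀ x ∈ S, ∀ y ∈ S, x - y ∈ I) →
    (∀ x ∈ S, ∀ y ∈ S, ((Ideal.absNorm (Ideal.span {x - y}) : ℕ) : ℝ) ≤ M) →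
    1 ≤ Real.log (C₁ * M) - Real.log (Ideal.absNorm I) - Real.log S.card ∧
    hh c (Real.log (C₁ * M) - Real.log (Ideal.absNorm I)) S.card ≤ W K S

lemma card_image_le_card_image {α β γ : Type*} [DecidableEq β] [DecidableEq γ] (s : Finset α)
    (f : α → β) (g : α → γ) (h : ∀ a ∈ s, ∀ b ∈ s, f a = f b → g a = g b) :
    (s.image g).card ≤ (s.image f).card := by
  classical
  rcases s.eq_empty_or_nonempty with rfl | ⟨a0, ha0⟩
  · simp
  · have : s.image g ⊆ (s.image f).image (fun b => if hb : ∃ a ∈ s, f a = b then g hb.choose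
        else g a0) := by
      intro v hv
      obtain ⟨a, ha, rfl⟩ := mem_image.1 hv
      refine mem_image.2 ⟨f a, mem_image_of_mem f ha, ?_⟩
      have hb : ∃ a' ∈ s, f a' = f a := ⟨a, ha, rfl⟩
      simp only [hb, dif_pos]
      exact h _ hb.choose_spec.1 _ ha hb.choose_spec.2
    exact (card_le_card this).trans card_image_le

section

variable (K : Type*) [Field K] [NumberField K] [IsCMField K]

/-- `φ (q z) = ‖φ z‖²` -/
lemma emb_q (φ : K →+* ℂ) (z : 𝓞 K) : φ ((q K z : 𝓞 K) : K) = ((‖φ z‖ ^ 2 : ℝ) : ℂ) := by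
  have h : ((q K z : 𝓞 K) : K) = (z : K) * IsCMField.complexConj K (z : K) := rfl
  rw [h, map_mul, IsCMField.complexEmbedding_complexConj, Complex.mul_conj,
    Complex.normSq_eq_norm_sq]

lemma q_eq_of_norm_eq (φ : K →+* ℂ) (z z' : 𝓞 K) (h : ‖φ z‖ = ‖φ z'‖) : q K z = q K z' := by
  apply RingOfIntegers.ext
  apply φ.injective
  rw [emb_q, emb_q, h]

theorem final_of (h : Main2 K) :
    ∃ c : ℝ, 0 < c ∧ ∀ (φ : K →+* ℂ) (t : ℂ) (M : ℝ) (P : Finset ℂ), 2 ≤ P.card →
      (∀ x ∈ P, ∀ y ∈ P, ∃ z : 𝓞 K, x - y = t * φ z ∧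
        |((Algebra.norm ℚ (z : K) : ℚ) : ℝ)| ≤ M) →
      c * (P.card : ℝ) ^ 2 /
          √(Real.log (2 + M / P.card) * Real.log (2 * P.card + M)) ≤
        ∑ x ∈ P, ((((P.erase x).image (fun y => dist x y)).card : ℕ) : ℝ) := by
  classical
  obtain ⟨c, C₁, hc, hC₁, H⟩ := h
  have hl2 : (0.69 : ℝ) < Real.log 2 := by have := Real.log_two_gt_d9; linarith
  set A : ℝ := 1 + 2 * Real.log C₁ with hA
  have hlC : 0 ≤ Real.log C₁ := Real.log_nonneg hC₁
  have hA1 : 1 ≤ A := by linarith
  refine ⟨c / A, by positivity, ?_⟩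
  intro φ t M P hP hz
  -- coordinates
  obtain ⟨x₀, hx₀⟩ : P.Nonempty := card_pos.1 (by omega)
  have hz' : ∀ x, ∃ z : 𝓞 K, x ∈ P → x - x₀ = t * φ z := by
    intro x
    by_cases hx : x ∈ P
    · obtain ⟨z, hz1, -⟩ := hz x hx x₀ hx₀
      exact ⟨z, fun _ => hz1⟩
    · exact ⟨0, fun h => absurd h hx⟩
  choose f hf using hz'
  have hdiff : ∀ x ∈ P, ∀ y ∈ P, x - y = t * φ ((f x - f y : 𝓞 K) : K) := by
    intro x hx y hy
    have h1 := hf x hx
    have h2 := hf y hy
    have : ((f x - f y : 𝓞 K) : K) = (f x : K) - (f y : K) := by push_cast; rfl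
    rw [this, map_sub, mul_sub, ← h1, ← h2]
    ring
  have hinj : Set.InjOn f (P : Set ℂ) := by
    intro x hx y hy hxy
    have := hdiff x hx y hy
    rw [hxy, sub_self] at this
    simpa [sub_eq_zero] using this
  obtain ⟨a, ha, b, hb, hab⟩ := one_lt_card.1 (show 1 < P.card by omega)
  have ht : t ≠ 0 := by
    rintro rfl
    have := hdiff a ha b hb
    rw [zero_mul, sub_eq_zero] at this
    exact hab this
  set S := P.image f with hS
  have hSc : S.card = P.card := card_image_of_injOn hinj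
  have hnorm : ∀ x ∈ S, ∀ y ∈ S, ((Ideal.absNorm (Ideal.span {x - y}) : ℕ) : ℝ) ≤ M := by
    intro x' hx' y' hy'
    obtain ⟨x, hx, rfl⟩ := mem_image.1 hx'
    obtain ⟨y, hy, rfl⟩ := mem_image.1 hy'
    obtain ⟨z, hz1, hz2⟩ := hz x hx y hy
    have hzz : z = f x - f y := by
      have h1 := hdiff x hx y hy
      rw [hz1] at h1
      have h2 := mul_left_cancel₀ ht h1
      exact RingOfIntegers.ext (φ.injective h2)
    rw [← hzz]
    have : ((Ideal.absNorm (Ideal.span {z}) : ℕ) : ℝ) = |((Algebra.norm ℚ (z : K) : ℚ) : ℝ)| := by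
      rw [Ideal.absNorm_span_singleton, Nat.cast_natAbs, Int.cast_abs]
      congr 1
      have := Algebra.coe_norm_int z
      rw [← this]
      push_cast
      rfl
    rw [this]
    exact hz2
  obtain ⟨hpack, hmain⟩ := H M ⊤ (by simp) S (by omega) (fun _ _ _ _ => trivial) hnorm
  simp only [Ideal.absNorm_top, Nat.cast_one, Real.log_one, sub_zero, hSc] at hpack hmain
  -- number of distances
  have hW : ((W K S : ℕ) : ℝ) ≤
      ∑ x ∈ P, ((((P.erase x).image (fun y => dist x y)).card : ℕ) : ℝ) := by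
    have : W K S ≤ ∑ x ∈ P, ((P.erase x).image (fun y => dist x y)).card := by
      unfold W
      rw [hS, sum_image hinj]
      refine sum_le_sum fun x hx => ?_
      have hD : D K (P.image f) (f x) = (P.erase x).image (fun y => q K (f x - f y)) := by
        unfold D
        ext v
        simp only [mem_image, mem_erase]
        constructor
        · rintro ⟨_, ⟨hne, y, hy, rfl⟩, rfl⟩
          exact ⟨y, ⟨fun h => hne (by rw [h]), hy⟩, rfl⟩
        · rintro ⟨y, ⟨hne, hy⟩, rfl⟩
          exact ⟨f y, ⟨fun h => hne (hinj hy hx h), y, hy, rfl⟩, rfl⟩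
      rw [hD]
      refine card_image_le_card_image _ _ _ ?_
      intro y hy y' hy' hd
      have hy := mem_of_mem_erase hy
      have hy' := mem_of_mem_erase hy'
      apply q_eq_of_norm_eq K φ
      rw [dist_eq_norm, dist_eq_norm, hdiff x hx y hy, hdiff x hx y' hy', norm_mul, norm_mul] at hd
      exact mul_left_cancel₀ (norm_ne_zero_iff.2 ht) hd
    exact_mod_cast this
  refine le_trans ?_ (hmain.trans hW)
  -- analysis
  have hn : (2 : ℝ) ≤ P.card := by exact_mod_cast hP
  set n : ℝ := (P.card : ℝ) with hnn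
  have hM0 : 0 ≤ M := (Nat.cast_nonneg _).trans (hnorm (f a) (mem_image_of_mem f ha) (f b)
    (mem_image_of_mem f hb))
  have hlogn : 0 ≤ Real.log n := Real.log_nonneg (by linarith)
  have hMpos : 0 < M := by
    rcases hM0.lt_or_eq with h | h
    · exact h
    · exfalso
      rw [← h, mul_zero, Real.log_zero] at hpack
      linarith
  have hCM : 0 < C₁ * M := by positivity
  unfold hh
  set B := Real.log (C₁ * M) with hB
  have hBe : B = Real.log C₁ + Real.log M := by
    rw [hB, Real.log_mul (by positivity) (by positivity)]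
  set a' := Real.log (2 + M / n) with ha'
  set b' := Real.log (2 * n + M) with hb'
  have ha1 : (0.69 : ℝ) < a' := by
    refine hl2.trans_le (Real.log_le_log (by norm_num) ?_)
    have : 0 ≤ M / n := by positivity
    linarith
  have hb1 : (0.69 : ℝ) < b' := hl2.trans_le (Real.log_le_log (by norm_num) (by linarith))
  have hB1 : B ≤ A * b' := by
    have : Real.log M ≤ b' := Real.log_le_log hMpos (by linarith)
    nlinarith
  have hB2 : B - Real.log n ≤ A * a' := by
    have : Real.log M - Real.log n ≤ a' := by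
      rw [← Real.log_div (by positivity) (by positivity)]
      exact Real.log_le_log (by positivity) (by linarith)
    nlinarith
  have hBpos : 0 < B := by linarith
  have hprod : B * (B - Real.log n) ≤ A ^ 2 * (a' * b') := by
    calc B * (B - Real.log n) ≤ (A * b') * (A * a') :=
          mul_le_mul hB1 hB2 (by linarith) (by positivity)
      _ = _ := by ring
  have hsq : √(B * (B - Real.log n)) ≤ A * √(a' * b') := by
    calc √(B * (B - Real.log n)) ≤ √(A ^ 2 * (a' * b')) := Real.sqrt_le_sqrt hprod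
      _ = _ := by rw [Real.sqrt_mul (by positivity), Real.sqrt_sq (by positivity)]
  have hab : 0 < √(a' * b') := Real.sqrt_pos.2 (by positivity)
  have hLp : 0 < √(B * (B - Real.log n)) := Real.sqrt_pos.2 (by nlinarith)
  have e1 : c / A * n ^ 2 / √(a' * b') = c * n ^ 2 / (A * √(a' * b')) := by
    field_simp
  rw [e1]
  exact div_le_div_of_nonneg_left (by positivity) hLp hsq

end

/-- the final statement for every model `K` of the `m`-th cyclotomic field -/
theorem final_model (m : ℕ) (hm : 3 ≤ m) (K : Type*) [Field K] [NumberField K]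
    [IsCyclotomicExtension {m} ℚ K] (h : ∀ [IsCMField K], Main2 K) :
    ∃ c : ℝ, 0 < c ∧ ∀ (φ : K →+* ℂ) (t : ℂ) (M : ℝ) (P : Finset ℂ), 2 ≤ P.card →
      (∀ x ∈ P, ∀ y ∈ P, ∃ z : 𝓞 K, x - y = t * φ z ∧
        |((Algebra.norm ℚ (z : K) : ℚ) : ℝ)| ≤ M) →
      c * (P.card : ℝ) ^ 2 /
          √(Real.log (2 + M / P.card) * Real.log (2 * P.card + M)) ≤
        ∑ x ∈ P, ((((P.erase x).image (fun y => dist x y)).card : ℕ) : ℝ) := by
  have : IsCMField K :=
    IsCyclotomicExtension.Rat.isCMField K (S := {m}) ⟨m, rfl, by omega⟩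
  exact final_of K h

lemma cyclotomicField_rat (m : ℕ) : IsCyclotomicExtension {m} ℚ (CyclotomicField m ℚ) := by
  have h : @IsCyclotomicExtension {m} ℚ (CyclotomicField m ℚ) _ _ (CyclotomicField.algebra m ℚ) :=
    inferInstance
  have h2 : (DivisionRing.toRatAlgebra : Algebra ℚ (CyclotomicField m ℚ)) =
      CyclotomicField.algebra m ℚ := Subsingleton.elim _ _
  rw [← h2] at h
  exact h

/-- the final statement for `K = CyclotomicField m ℚ` -/
theorem final_cyclotomic (m : ℕ) (hm : 3 ≤ m)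
    (h : ∀ [IsCMField (CyclotomicField m ℚ)], Main2 (CyclotomicField m ℚ)) :
    ∃ c : ℝ, 0 < c ∧ ∀ (φ : CyclotomicField m ℚ →+* ℂ) (t : ℂ) (M : ℝ) (P : Finset ℂ),
      2 ≤ P.card →
      (∀ x ∈ P, ∀ y ∈ P, ∃ z : 𝓞 (CyclotomicField m ℚ), x - y = t * φ z ∧
        |((Algebra.norm ℚ (z : CyclotomicField m ℚ) : ℚ) : ℝ)| ≤ M) →
      c * (P.card : ℝ) ^ 2 /
          √(Real.log (2 + M / P.card) * Real.log (2 * P.card + M)) ≤
        ∑ x ∈ P, ((((P.erase x).image (fun y => dist x y)).card : ℕ) : ℝ) := by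
  have h1 := cyclotomicField_rat m
  obtain ⟨c, hc, H⟩ := final_model m hm (CyclotomicField m ℚ) h
  exact ⟨c, hc, H⟩

end Pool.Agent.CYD
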