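import Pool.Agent.CYD.Defs

/-!
CYD: packing by a prime ideal of norm `p ≡ 1 (mod m)`, `M / N(I) < p ≤ C M / N(I)`.
-/

set_option autoImplicit false

namespace Pool.Agent.CYD

open NumberField Finset

/-- Mertens' theorem for `w`: there is a prime `p ≡ 1 (mod m)` in every interval `(X, C X]` -/
theorem exists_prime_interval (w : ℕ → ℝ) (C : ℝ)
    (hS : ∀ N : ℕ, 1 ≤ N → |∑ k ∈ Icc 1 N, w k / k - Real.log N / 2| ≤ C) (X : ℝ) (hX : 1 ≤ X) :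
    ∃ p : ℕ, w p ≠ 0 ∧ X < p ∧ (p : ℝ) ≤ 2 * Real.exp (4 * C + 1) * X := by
  have hC : 0 ≤ C := (abs_nonneg _).trans (hS 1 le_rfl)
  have hE : 1 ≤ Real.exp (4 * C + 1) := Real.one_le_exp (by linarith)
  set Y : ℝ := 2 * Real.exp (4 * C + 1) * X with hY
  have hXY : X ≤ Y := by nlinarith
  set N₁ := ⌊X⌋₊ with hN₁
  set N₂ := ⌊Y⌋₊ with hN₂
  have h1 : 1 ≤ N₁ := (Nat.one_le_floor_iff X).2 hX
  have h12 : N₁ ≤ N₂ := Nat.floor_le_floor hXY
  by_contra hcon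
  push Not at hcon
  have hz : ∀ k ∈ Icc 1 N₂, k ∉ Icc 1 N₁ → w k / k = 0 := by
    intro k hk hk'
    rw [mem_Icc] at hk hk'
    have hk2 : N₁ < k := by omega
    have hXk : X < k := (Nat.floor_lt (by linarith)).1 hk2
    have hkY : (k : ℝ) ≤ Y := (Nat.cast_le.2 hk.2).trans (Nat.floor_le (by linarith))
    by_cases hw : w k = 0
    · rw [hw, zero_div]
    · exact absurd hkY (not_le.2 (hcon k hw hXk))
  have heq : ∑ k ∈ Icc 1 N₂, w k / k = ∑ k ∈ Icc 1 N₁, w k / k :=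
    (sum_subset (Icc_subset_Icc_right h12) hz).symm
  have e1 := abs_le.1 (hS N₁ h1)
  have e2 := abs_le.1 (hS N₂ (h1.trans h12))
  rw [heq] at e2
  have h3 : Real.log N₂ - Real.log N₁ ≤ 4 * C := by linarith [e1.1, e1.2, e2.1, e2.2]
  have hN1X : (N₁ : ℝ) ≤ X := Nat.floor_le (by linarith)
  have hN1p : (0 : ℝ) < N₁ := by exact_mod_cast h1
  have hN2Y : Y / 2 ≤ N₂ := by
    have hlt : Y < N₂ + 1 := Nat.lt_floor_add_one Y
    have hY2 : 2 ≤ Y := by nlinarith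
    linarith
  have h4 : Real.exp (4 * C + 1) * N₁ ≤ N₂ := by
    calc Real.exp (4 * C + 1) * N₁ ≤ Real.exp (4 * C + 1) * X := by gcongr
      _ = Y / 2 := by rw [hY]; ring
      _ ≤ N₂ := hN2Y
  have h5 := Real.log_le_log (by positivity) h4
  rw [Real.log_mul (by positivity) (by positivity), Real.log_exp] at h5
  linarith

theorem pack2 (m : ℕ) (hm : 3 ≤ m) (K : Type*) [Field K] [NumberField K]
    (hmert : ∃ C : ℝ, 0 ≤ C ∧ ∀ N : ℕ, 1 ≤ N →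
      |∑ k ∈ Icc 1 N, w m k / k - Real.log N / 2| ≤ C)
    (hspl : ∀ p : ℕ, p.Prime → p % m = 1 →
      ∃ T : Finset (Ideal (𝓞 K)), T.card = m.totient ∧
        ∀ P ∈ T, P.IsPrime ∧ P ≠ ⊥ ∧ Ideal.absNorm P = p)
    (hcls : ∀ (I P : Ideal (𝓞 K)), I ≠ ⊥ → P ≠ ⊥ → ∀ (S : Finset (𝓞 K)),
      (∀ x ∈ S, ∀ y ∈ S, x - y ∈ I) →
      ∃ J : Finset (Finset (𝓞 K)), J.card ≤ Ideal.absNorm P ∧
        (∀ A ∈ J, A ⊆ S ∧ A.Nonempty ∧ ∀ x ∈ A, ∀ y ∈ A, x - y ∈ I * P) ∧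
        (J : Set (Finset (𝓞 K))).PairwiseDisjoint id ∧
        (∀ x ∈ S, ∃ A ∈ J, x ∈ A)) :
    ∃ C₁ : ℝ, 1 ≤ C₁ ∧ ∀ (M : ℝ) (I : Ideal (𝓞 K)), I ≠ ⊥ →
      ∀ S : Finset (𝓞 K), 2 ≤ S.card → (∀ x ∈ S, ∀ y ∈ S, x - y ∈ I) →
      (∀ x ∈ S, ∀ y ∈ S, ((Ideal.absNorm (Ideal.span {x - y}) : ℕ) : ℝ) ≤ M) →
      (S.card : ℝ) * Ideal.absNorm I ≤ C₁ * M := by
  classical
  obtain ⟨C, hC, hS⟩ := hmert
  refine ⟨2 * Real.exp (4 * C + 1), ?_, ?_⟩
  · have : 1 ≤ Real.exp (4 * C + 1) := Real.one_le_exp (by linarith)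
    linarith
  intro M I hI S hS2 hSI hSM
  have hNI : 0 < Ideal.absNorm I := Nat.pos_of_ne_zero (by
    rw [Ne, Ideal.absNorm_eq_zero_iff]; exact hI)
  have hNIr : (0 : ℝ) < Ideal.absNorm I := by exact_mod_cast hNI
  -- norm of a difference
  have hdvd : ∀ J : Ideal (𝓞 K), ∀ x ∈ S, ∀ y ∈ S, x ≠ y → x - y ∈ J →
      (Ideal.absNorm J : ℝ) ≤ M := by
    intro J x hx y hy hxy hJ
    have h1 : Ideal.absNorm J ∣ Ideal.absNorm (Ideal.span {x - y}) :=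
      Ideal.absNorm_dvd_absNorm_of_le ((Ideal.span_singleton_le_iff_mem _).2 hJ)
    have h2 : Ideal.absNorm (Ideal.span {x - y}) ≠ 0 := by
      rw [Ne, Ideal.absNorm_eq_zero_iff, Ideal.span_singleton_eq_bot]
      exact sub_ne_zero.2 hxy
    have h3 := Nat.le_of_dvd (Nat.pos_of_ne_zero h2) h1
    exact (Nat.cast_le.2 h3).trans (hSM x hx y hy)
  obtain ⟨a, ha, b, hb, hab⟩ := one_lt_card.1 (show 1 < S.card by omega)
  have hIM := hdvd I a ha b hb hab (hSI a ha b hb)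
  have hX : 1 ≤ M / Ideal.absNorm I := by
    rw [le_div_iff₀ hNIr, one_mul]; exact hIM
  obtain ⟨p, hwp, hp1, hp2⟩ := exists_prime_interval (w m) C hS _ hX
  have hpp : p.Prime ∧ p % m = 1 := by
    by_contra h
    exact hwp (by unfold w; rw [if_neg h])
  obtain ⟨T, hT, hTP⟩ := hspl p hpp.1 hpp.2
  have hTne : T.Nonempty := by
    rw [← card_pos, hT]
    exact Nat.totient_pos.2 (by omega)
  obtain ⟨P, hP⟩ := hTne
  obtain ⟨-, hP0, hPn⟩ := hTP P hP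
  obtain ⟨J, hJc, hJ, -, hJS⟩ := hcls I P hI hP0 S hSI
  have hone : ∀ A ∈ J, A.card ≤ 1 := by
    intro A hA
    rw [card_le_one]
    intro x hx y hy
    by_contra hxy
    have h1 := hdvd (I * P) x ((hJ A hA).1 hx) y ((hJ A hA).1 hy) hxy ((hJ A hA).2.2 x hx y hy)
    rw [map_mul, hPn] at h1
    push_cast at h1
    rw [div_lt_iff₀ hNIr] at hp1
    nlinarith
  have hcard : S.card ≤ p := by
    calc S.card ≤ (J.biUnion id).card := by
          apply card_le_card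
          intro x hx
          obtain ⟨A, hA, hxA⟩ := hJS x hx
          exact mem_biUnion.2 ⟨A, hA, hxA⟩
      _ ≤ ∑ A ∈ J, (id A).card := card_biUnion_le
      _ ≤ ∑ _A ∈ J, 1 := sum_le_sum fun A hA => hone A hA
      _ = J.card := by simp
      _ ≤ p := by rw [← hPn]; exact hJc
  have hcr : (S.card : ℝ) ≤ p := by exact_mod_cast hcard
  calc (S.card : ℝ) * Ideal.absNorm I ≤ (2 * Real.exp (4 * C + 1) * (M / Ideal.absNorm I)) *
        Ideal.absNorm I := by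
        gcongr
        exact hcr.trans hp2
    _ = 2 * Real.exp (4 * C + 1) * M := by field_simp

end Pool.Agent.CYD
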