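import Pool.Agent.CYD.Defs

/-!
CYD: elementary facts on `q`, `D`, `W` and the conjugate ideal.
-/

set_option autoImplicit false

namespace Pool.Agent.CYD

open NumberField Finset

/-- the absolute norm is invariant under ring automorphisms -/
theorem absNorm_map_equiv {R : Type*} [CommRing R] [IsDedekindDomain R]
    [Module.Free ℤ R] (e : R ≃+* R) (I : Ideal R) :
    Ideal.absNorm (I.map (e : R →+* R)) = Ideal.absNorm I := by
  rw [Ideal.absNorm_apply, Ideal.absNorm_apply, Submodule.cardQuot_apply, Submodule.cardQuot_apply]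
  exact (Nat.card_congr (Ideal.quotientEquiv I (I.map (e : R →+* R)) e rfl).toEquiv).symm

variable (K : Type*) [Field K] [NumberField K] [IsCMField K]

/-- the conjugate ideal -/
noncomputable def cI (I : Ideal (𝓞 K)) : Ideal (𝓞 K) :=
  I.map ((IsCMField.ringOfIntegersComplexConj K).toRingEquiv : 𝓞 K →+* 𝓞 K)

theorem absNorm_cI (I : Ideal (𝓞 K)) : Ideal.absNorm (cI K I) = Ideal.absNorm I :=
  absNorm_map_equiv _ I

theorem conj_mem_cI (I : Ideal (𝓞 K)) (z : 𝓞 K) (hz : z ∈ I) :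
    IsCMField.ringOfIntegersComplexConj K z ∈ cI K I :=
  Ideal.mem_map_of_mem ((IsCMField.ringOfIntegersComplexConj K).toRingEquiv : 𝓞 K →+* 𝓞 K) hz

theorem q_mem (I P : Ideal (𝓞 K)) (z : 𝓞 K) (hz : z ∈ I * P) : q K z ∈ I * cI K I * P := by
  have h1 : z * IsCMField.ringOfIntegersComplexConj K z ∈ (I * P) * cI K I := by
    apply Ideal.mul_mem_mul hz
    exact conj_mem_cI K I z (Ideal.mul_le_left hz)
  have h2 : (I * P) * cI K I = I * cI K I * P := by ring
  rw [h2] at h1
  exact h1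

theorem q_mem_one (I : Ideal (𝓞 K)) (z : 𝓞 K) (hz : z ∈ I) : q K z ∈ I * cI K I :=
  Ideal.mul_mem_mul hz (conj_mem_cI K I z hz)

theorem q_ne_zero (z : 𝓞 K) (hz : z ≠ 0) : q K z ≠ 0 := by
  unfold q
  apply mul_ne_zero hz
  intro h
  apply hz
  exact (map_eq_zero_iff _ (IsCMField.ringOfIntegersComplexConj K).injective).1 h

theorem absNorm_q (z : 𝓞 K) :
    Ideal.absNorm (Ideal.span {q K z}) = Ideal.absNorm (Ideal.span {z}) ^ 2 := by
  have h1 : Ideal.span {q K z} = Ideal.span {z} * cI K (Ideal.span {z}) := by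
    unfold q cI
    rw [Ideal.map_span, Set.image_singleton, Ideal.span_singleton_mul_span_singleton]
    rfl
  rw [h1, map_mul, absNorm_cI, sq]

theorem W_lower (S : Finset (𝓞 K)) : S.card - 1 ≤ W K S := by
  classical
  unfold W
  by_cases h : S.card ≤ 1
  · omega
  · have h2 : ∀ x ∈ S, 1 ≤ (D K S x).card := by
      intro x hx
      obtain ⟨y, hy, hxy⟩ := Finset.exists_mem_ne (by omega : 1 < S.card) x
      have : q K (x - y) ∈ D K S x := by
        unfold D
        exact Finset.mem_image_of_mem (fun y => q K (x - y)) (Finset.mem_erase.2 ⟨hxy, hy⟩)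
      exact Finset.card_pos.2 ⟨_, this⟩
    have h3 := Finset.card_nsmul_le_sum S (fun x => (D K S x).card) 1 h2
    simp only [smul_eq_mul, mul_one] at h3
    omega

theorem W_lower2 (S : Finset (𝓞 K)) (hS : 2 ≤ S.card) : S.card ≤ W K S := by
  classical
  unfold W
  have h2 : ∀ x ∈ S, 1 ≤ (D K S x).card := by
    intro x hx
    obtain ⟨y, hy, hxy⟩ := Finset.exists_mem_ne (by omega : 1 < S.card) x
    have : q K (x - y) ∈ D K S x := by
      unfold D
      exact Finset.mem_image_of_mem (fun y => q K (x - y)) (Finset.mem_erase.2 ⟨hxy, hy⟩)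
    exact Finset.card_pos.2 ⟨_, this⟩
  have h3 := Finset.card_nsmul_le_sum S (fun x => (D K S x).card) 1 h2
  simpa using h3

/-- the classes -/
theorem W_classes (I P : Ideal (𝓞 K)) (S : Finset (𝓞 K)) (J : Finset (Finset (𝓞 K)))
    (hJ : ∀ A ∈ J, A ⊆ S ∧ A.Nonempty ∧ ∀ x ∈ A, ∀ y ∈ A, x - y ∈ I * P)
    (hdis : (J : Set (Finset (𝓞 K))).PairwiseDisjoint id)
    (hcov : ∀ x ∈ S, ∃ A ∈ J, x ∈ A)
    [DecidablePred fun v : 𝓞 K => v ∈ I * cI K I * P] :
    ∑ A ∈ J, W K A ≤ ∑ x ∈ S, ((D K S x).filter (fun v => v ∈ I * cI K I * P)).card := by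
  classical
  have hS : S = J.biUnion id := by
    ext x
    simp only [Finset.mem_biUnion, id_eq]
    constructor
    · intro hx
      exact hcov x hx
    · rintro ⟨A, hA, hx⟩
      exact (hJ A hA).1 hx
  have h1 : ∀ f : 𝓞 K → ℕ, ∑ x ∈ S, f x = ∑ A ∈ J, ∑ x ∈ A, f x := by
    intro f
    conv_lhs => rw [hS]
    rw [Finset.sum_biUnion hdis]
    rfl
  rw [h1]
  apply Finset.sum_le_sum
  intro A hA
  unfold W
  apply Finset.sum_le_sum
  intro x hx
  apply Finset.card_le_card
  intro v hv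
  unfold D at hv
  rw [Finset.mem_image] at hv
  obtain ⟨y, hy, rfl⟩ := hv
  rw [Finset.mem_erase] at hy
  rw [Finset.mem_filter]
  refine ⟨?_, q_mem K I P _ ((hJ A hA).2.2 x hx y hy.2)⟩
  unfold D
  exact Finset.mem_image_of_mem (fun y => q K (x - y))
    (Finset.mem_erase.2 ⟨hy.1, (hJ A hA).1 hy.2⟩)

theorem sum_card_classes {α : Type*} [DecidableEq α] (S : Finset α) (J : Finset (Finset α))
    (hJ : ∀ A ∈ J, A ⊆ S) (hdis : (J : Set (Finset α)).PairwiseDisjoint id)
    (hcov : ∀ x ∈ S, ∃ A ∈ J, x ∈ A) : ∑ A ∈ J, A.card = S.card := by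
  have hS : S = J.biUnion id := by
    ext x
    simp only [Finset.mem_biUnion, id_eq]
    constructor
    · intro hx
      exact hcov x hx
    · rintro ⟨A, hA, hx⟩
      exact hJ A hA hx
  conv_rhs => rw [hS]
  rw [Finset.card_biUnion (fun A hA B hB hAB => hdis hA hB hAB)]
  rfl

end Pool.Agent.CYD
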