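import Mathlib

/-!
CYD: pinned distances in cyclotomic point sets (MP_b8d6bb_co). Definitions.
-/

set_option autoImplicit false

namespace Pool.Agent.CYD

open NumberField

/-- weight `(φ(m)/2) log p` on the primes `p ≡ 1 (mod m)`, `0` elsewhere -/
noncomputable def w (m p : ℕ) : ℝ :=
  if p.Prime ∧ p % m = 1 then (m.totient : ℝ) / 2 * Real.log p else 0

/-- the function of the lower bound -/
noncomputable def hh (c B x : ℝ) : ℝ := c * x ^ 2 / √(B * (B - Real.log x))

variable (K : Type*) [Field K] [NumberField K] [IsCMField K]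

/-- `z * conj z` -/
noncomputable def q (z : 𝓞 K) : 𝓞 K := z * IsCMField.ringOfIntegersComplexConj K z

open Classical in
/-- the values `q (x - y)`, `y ∈ S`, `y ≠ x` -/
noncomputable def D (S : Finset (𝓞 K)) (x : 𝓞 K) : Finset (𝓞 K) :=
  (S.erase x).image (fun y => q K (x - y))

/-- number of pairs (point `x`, distance from `x`) -/
noncomputable def W (S : Finset (𝓞 K)) : ℕ := ∑ x ∈ S, (D K S x).card

end Pool.Agent.CYD
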