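import Pool.Agent.DL.Mertens

/-!
# CYD LONE: `L(1, χ) ≠ 0` with an error term, and the sum `Σ χ(n) Λ(n) / n`, complex characters

Port of `Pool/Agent/DL/{CharSum,LNZ,Mertens}.lean` from real to complex Dirichlet characters.
* `lone`: `‖Σ_{k ≤ N} χ(k)/k - L‖ ≤ 2 m / N`, `L ≠ 0`;
* `logsum`: `‖Σ_{k ≤ N} χ(k) log k / k‖ ≤ C`;
* `charmert`: `‖Σ_{k ≤ N} χ(k) Λ(k) / k‖ ≤ C`.
-/

set_option autoImplicit false

namespace Pool.Agent.CYD

open ArithmeticFunction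

/-- a periodic sequence of norm at most one with zero sum over the period -/
structure Pz (q : ℕ) (c : ℕ → ℂ) : Prop where
  pos : 1 ≤ q
  per : ∀ n, c (n + q) = c n
  nrm : ∀ n, ‖c n‖ ≤ 1
  zer : ∑ n ∈ Finset.range q, c n = 0

theorem pz_per_mul {q : ℕ} {c : ℕ → ℂ} (h : Pz q c) (n k : ℕ) : c (q * k + n) = c n := by
  induction k with
  | zero => simp
  | succ k ih =>
    have : q * (k + 1) + n = (q * k + n) + q := by ring
    rw [this, h.per, ih]

theorem pz_range_mul {q : ℕ} {c : ℕ → ℂ} (h : Pz q c) (k : ℕ) :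
    ∑ n ∈ Finset.range (q * k), c n = 0 := by
  induction k with
  | zero => simp
  | succ k ih =>
    rw [mul_add, mul_one, Finset.sum_range_add, ih, zero_add]
    rw [Finset.sum_congr rfl (fun n _ => pz_per_mul h n k)]
    exact h.zer

theorem pz_range_mod {q : ℕ} {c : ℕ → ℂ} (h : Pz q c) (N : ℕ) :
    ∑ n ∈ Finset.range N, c n = ∑ n ∈ Finset.range (N % q), c n := by
  conv_lhs => rw [← Nat.div_add_mod N q]
  rw [Finset.sum_range_add, pz_range_mul h, zero_add]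
  exact Finset.sum_congr rfl (fun n _ => pz_per_mul h n _)

theorem pz_bounded {q : ℕ} {c : ℕ → ℂ} (h : Pz q c) (N : ℕ) :
    ‖∑ n ∈ Finset.Icc 1 N, c n‖ ≤ q := by
  have h1 : ∑ n ∈ Finset.Icc 1 N, c n = ∑ n ∈ Finset.range (N + 1), c n - c 0 := by
    rw [Finset.range_eq_Ico, Finset.sum_eq_sum_Ico_succ_bot (Nat.succ_pos N)]
    have : Finset.Ico (0 + 1) (N + 1) = Finset.Icc 1 N := by
      ext x
      rw [Finset.mem_Ico, Finset.mem_Icc]
      omega
    rw [this]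
    ring
  rw [h1, pz_range_mod h]
  have hq : (N + 1) % q < q := Nat.mod_lt _ h.pos
  have h2 : ‖∑ n ∈ Finset.range ((N + 1) % q), c n‖ ≤ ((N + 1) % q : ℕ) := by
    refine (norm_sum_le _ _).trans ?_
    refine (Finset.sum_le_sum fun n _ => h.nrm n).trans ?_
    simp
  have h3 := h.nrm 0
  have h4 := norm_sub_le (∑ n ∈ Finset.range ((N + 1) % q), c n) (c 0)
  have h5 : (((N + 1) % q : ℕ) : ℝ) + 1 ≤ q := by exact_mod_cast hq
  linarith

private lemma pz_abel_step {q : ℕ} {c : ℕ → ℂ} (h : Pz q c) (M k : ℕ) :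
    ‖((∑ n ∈ Finset.Icc 1 (M + k), c n / n) -
        (∑ n ∈ Finset.Icc 1 (M + k), c n) / ((M + k : ℕ) + 1 : ℂ)) -
      ((∑ n ∈ Finset.Icc 1 M, c n / n) -
        (∑ n ∈ Finset.Icc 1 M, c n) / (M + 1 : ℂ))‖ ≤
      q * (1 / (M + 1 : ℝ) - 1 / ((M + k : ℕ) + 1 : ℝ)) := by
  induction k with
  | zero => simp
  | succ k ih =>
    have e1 : Finset.Icc 1 (M + (k + 1)) = insert (M + k + 1) (Finset.Icc 1 (M + k)) := by
      ext x; simp; omega
    have e2 : (M + k + 1) ∉ Finset.Icc 1 (M + k) := by simp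
    have hB := pz_bounded h (M + (k + 1))
    have hBdef : ∑ n ∈ Finset.Icc 1 (M + (k + 1)), c n =
        c (M + k + 1) + ∑ n ∈ Finset.Icc 1 (M + k), c n := by
      rw [e1, Finset.sum_insert e2]
    have hbdef : ∑ n ∈ Finset.Icc 1 (M + (k + 1)), c n / n =
        c (M + k + 1) / ((M + k + 1 : ℕ) : ℂ) +
          ∑ n ∈ Finset.Icc 1 (M + k), c n / n := by
      rw [e1, Finset.sum_insert e2]
    set B1 := ∑ n ∈ Finset.Icc 1 (M + (k + 1)), c n with hB1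
    set B0 := ∑ n ∈ Finset.Icc 1 (M + k), c n with hB0
    set b1 := ∑ n ∈ Finset.Icc 1 (M + (k + 1)), c n / n with hb1
    set b0 := ∑ n ∈ Finset.Icc 1 (M + k), c n / n with hb0
    set b := ∑ n ∈ Finset.Icc 1 M, c n / n
    set B := ∑ n ∈ Finset.Icc 1 M, c n
    have hx : (0 : ℝ) < (M : ℝ) + k + 1 := by positivity
    have hx2 : (0 : ℝ) < (M : ℝ) + (k + 1) + 1 := by positivity
    have key : (b1 - B1 / (((M + (k + 1) : ℕ) : ℂ) + 1)) - (b - B / ((M : ℂ) + 1)) =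
        ((b0 - B0 / (((M + k : ℕ) : ℂ) + 1)) - (b - B / ((M : ℂ) + 1))) +
          B1 * ((1 / ((M : ℝ) + k + 1) - 1 / ((M : ℝ) + (k + 1) + 1) : ℝ) : ℂ) := by
      have hchi : c (M + k + 1) = B1 - B0 := by rw [hBdef]; ring
      rw [hbdef, hchi]
      push_cast
      ring
    rw [key]
    have hd : (0 : ℝ) ≤ 1 / ((M : ℝ) + k + 1) - 1 / ((M : ℝ) + (k + 1) + 1) := by
      rw [sub_nonneg]
      apply one_div_le_one_div_of_le hx
      linarith
    refine (norm_add_le _ _).trans ?_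
    rw [norm_mul, Complex.norm_real, Real.norm_of_nonneg hd]
    have h7 := mul_le_mul_of_nonneg_right hB hd
    push_cast at ih ⊢
    nlinarith

private lemma pz_cauchy {q : ℕ} {c : ℕ → ℂ} (h : Pz q c) (M N : ℕ) (hMN : M ≤ N) :
    ‖(∑ n ∈ Finset.Icc 1 M, c n / n) - (∑ n ∈ Finset.Icc 1 N, c n / n)‖ ≤
      2 * q / (M + 1) := by
  obtain ⟨k, rfl⟩ := Nat.exists_eq_add_of_le hMN
  have h1 := pz_abel_step h M k
  have h2 := pz_bounded h M
  have h3 := pz_bounded h (M + k)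
  set b1 := ∑ n ∈ Finset.Icc 1 (M + k), c n / n
  set B1 := ∑ n ∈ Finset.Icc 1 (M + k), c n
  set b := ∑ n ∈ Finset.Icc 1 M, c n / n
  set B := ∑ n ∈ Finset.Icc 1 M, c n
  have hn : ∀ j : ℕ, ‖((j : ℂ) + 1)‖ = (j : ℝ) + 1 := by
    intro j
    have : ((j : ℂ) + 1) = ((j + 1 : ℕ) : ℂ) := by push_cast; ring
    rw [this, Complex.norm_natCast]
    push_cast
    ring
  have hx : (0 : ℝ) < (M : ℝ) + 1 := by positivity
  have hx2 : (0 : ℝ) < ((M + k : ℕ) : ℝ) + 1 := by positivity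
  have h4 : ‖B / ((M : ℂ) + 1)‖ ≤ q / ((M : ℝ) + 1) := by
    rw [norm_div, hn]
    gcongr
  have h5 : ‖B1 / (((M + k : ℕ) : ℂ) + 1)‖ ≤ q / (((M + k : ℕ) : ℝ) + 1) := by
    rw [norm_div, hn]
    gcongr
  have h6 : b - b1 = -((b1 - B1 / (((M + k : ℕ) : ℂ) + 1)) - (b - B / ((M : ℂ) + 1))) +
      B / ((M : ℂ) + 1) - B1 / (((M + k : ℕ) : ℂ) + 1) := by ring
  rw [h6]
  have h7 := norm_sub_le (-((b1 - B1 / (((M + k : ℕ) : ℂ) + 1)) - (b - B / ((M : ℂ) + 1))) +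
      B / ((M : ℂ) + 1)) (B1 / (((M + k : ℕ) : ℂ) + 1))
  have h8 := norm_add_le (-((b1 - B1 / (((M + k : ℕ) : ℂ) + 1)) - (b - B / ((M : ℂ) + 1))))
      (B / ((M : ℂ) + 1))
  rw [norm_neg] at h8
  have h9 : (q : ℝ) * (1 / (M + 1 : ℝ) - 1 / ((M + k : ℕ) + 1 : ℝ)) =
      q / ((M : ℝ) + 1) - q / (((M + k : ℕ) : ℝ) + 1) := by ring
  have h10 : 2 * (q : ℝ) / ((M : ℝ) + 1) = q / ((M : ℝ) + 1) + q / ((M : ℝ) + 1) := by ring
  rw [h10]
  rw [h9] at h1
  linarith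

theorem pz_exists_L {q : ℕ} {c : ℕ → ℂ} (h : Pz q c) :
    ∃ L : ℂ, ∀ N : ℕ, ‖(∑ n ∈ Finset.Icc 1 N, c n / n) - L‖ ≤ 2 * q / (N + 1) := by
  have h0 : Filter.Tendsto (fun M : ℕ => 2 * (q : ℝ) / (M + 1)) Filter.atTop (nhds 0) := by
    have h1 := (tendsto_one_div_add_atTop_nhds_zero_nat (𝕜 := ℝ)).const_mul (2 * (q : ℝ))
    rw [mul_zero] at h1
    refine h1.congr fun M => ?_
    ring
  have hc : CauchySeq (fun N : ℕ => ∑ n ∈ Finset.Icc 1 N, c n / n) := by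
    apply cauchySeq_of_le_tendsto_0' (fun M : ℕ => 2 * (q : ℝ) / (M + 1)) _ h0
    intro M N hMN
    rw [dist_eq_norm]
    exact pz_cauchy h M N hMN
  obtain ⟨L, hL⟩ := cauchySeq_tendsto_of_complete hc
  refine ⟨L, fun N => ?_⟩
  have h1 : Filter.Tendsto (fun M : ℕ => ‖(∑ n ∈ Finset.Icc 1 N, c n / n) -
      ∑ n ∈ Finset.Icc 1 M, c n / n‖) Filter.atTop
      (nhds ‖(∑ n ∈ Finset.Icc 1 N, c n / n) - L‖) :=
    (tendsto_const_nhds.sub hL).norm
  apply le_of_tendsto h1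
  filter_upwards [Filter.eventually_ge_atTop N] with M hM
  exact pz_cauchy h N M hM

theorem pz_partial {q : ℕ} {c : ℕ → ℂ} (L : ℂ)
    (hL : ∀ N : ℕ, ‖(∑ n ∈ Finset.Icc 1 N, c n / n) - L‖ ≤ 2 * q / (N + 1))
    (ε : ℝ) (hε : 0 < ε) (N : ℕ) (hN : 1 ≤ N) :
    ‖∑ n ∈ Finset.Icc 1 N, c n / n * (((n : ℝ) ^ (-ε) : ℝ) : ℂ) - L‖ ≤
      2 * q * ε + 2 * q / (N + 1) := by
  have key : ∀ N : ℕ, 1 ≤ N →
      ‖∑ n ∈ Finset.Icc 1 N, c n / n * (((n : ℝ) ^ (-ε) : ℝ) : ℂ) - L +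
        (L - ∑ n ∈ Finset.Icc 1 N, c n / n) * (((N : ℝ) ^ (-ε) : ℝ) : ℂ)‖ ≤
        2 * q * ε * (1 - 1 / N) := by
    intro N hN
    induction N, hN using Nat.le_induction with
    | base => simp
    | succ N hN ih =>
      have hN0 : (0 : ℝ) < N := by exact_mod_cast hN
      rw [Finset.sum_Icc_succ_top (by omega), Finset.sum_Icc_succ_top (by omega)]
      have e1 : ∑ n ∈ Finset.Icc 1 N, c n / n * (((n : ℝ) ^ (-ε) : ℝ) : ℂ) +
          c (N + 1) / ((N + 1 : ℕ) : ℂ) * ((((N + 1 : ℕ) : ℝ) ^ (-ε) : ℝ) : ℂ) - L +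
          (L - (∑ n ∈ Finset.Icc 1 N, c n / n + c (N + 1) / ((N + 1 : ℕ) : ℂ))) *
            ((((N + 1 : ℕ) : ℝ) ^ (-ε) : ℝ) : ℂ) =
          (∑ n ∈ Finset.Icc 1 N, c n / n * (((n : ℝ) ^ (-ε) : ℝ) : ℂ) - L +
            (L - ∑ n ∈ Finset.Icc 1 N, c n / n) * (((N : ℝ) ^ (-ε) : ℝ) : ℂ)) -
          ((∑ n ∈ Finset.Icc 1 N, c n / n) - L) *
            ((((N + 1 : ℕ) : ℝ) ^ (-ε) - (N : ℝ) ^ (-ε) : ℝ) : ℂ) := by
        rw [Complex.ofReal_sub]
        ring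
      rw [e1]
      refine (norm_sub_le _ _).trans ?_
      rw [norm_mul, Complex.norm_real, Real.norm_eq_abs]
      have h1 : ‖(∑ n ∈ Finset.Icc 1 N, c n / n) - L‖ *
          |((N + 1 : ℕ) : ℝ) ^ (-ε) - (N : ℝ) ^ (-ε)| ≤ 2 * q / (N + 1) * (ε / N) :=
        mul_le_mul (hL N) (Pool.Agent.DL.lnz_weight ε hε N hN) (abs_nonneg _) (by positivity)
      have h2 : 2 * q * ε * (1 - 1 / N) + 2 * q / (N + 1) * (ε / N) =
          2 * q * ε * (1 - 1 / ((N + 1 : ℕ) : ℝ)) := by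
        push_cast
        field_simp
        ring
      linarith
  have h1 := key N hN
  have hN0 : (0 : ℝ) < N := by exact_mod_cast hN
  have hN1 : (1 : ℝ) ≤ N := by exact_mod_cast hN
  have hw : (N : ℝ) ^ (-ε) ≤ 1 := Real.rpow_le_one_of_one_le_of_nonpos hN1 (by linarith)
  have hw0 : 0 ≤ (N : ℝ) ^ (-ε) := Real.rpow_nonneg hN0.le _
  have e1 : ∑ n ∈ Finset.Icc 1 N, c n / n * (((n : ℝ) ^ (-ε) : ℝ) : ℂ) - L =
      (∑ n ∈ Finset.Icc 1 N, c n / n * (((n : ℝ) ^ (-ε) : ℝ) : ℂ) - L +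
        (L - ∑ n ∈ Finset.Icc 1 N, c n / n) * (((N : ℝ) ^ (-ε) : ℝ) : ℂ)) +
      ((∑ n ∈ Finset.Icc 1 N, c n / n) - L) * (((N : ℝ) ^ (-ε) : ℝ) : ℂ) := by ring
  rw [e1]
  refine (norm_add_le _ _).trans ?_
  rw [norm_mul, Complex.norm_real, Real.norm_of_nonneg hw0]
  have h2 : ‖(∑ n ∈ Finset.Icc 1 N, c n / n) - L‖ * (N : ℝ) ^ (-ε) ≤
      2 * q / (N + 1) * 1 := mul_le_mul (hL N) hw hw0 (by positivity)
  have h3 : 2 * q * ε * (1 - 1 / (N : ℝ)) ≤ 2 * q * ε := by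
    have : 0 ≤ 2 * q * ε * (1 / (N : ℝ)) := by positivity
    have e2 : 2 * q * ε * (1 - 1 / (N : ℝ)) = 2 * q * ε - 2 * q * ε * (1 / (N : ℝ)) := by ring
    linarith
  linarith

section chi

variable {m : ℕ} [NeZero m] (χ : DirichletCharacter ℂ m)

theorem chi_pz (hχ : χ ≠ 1) : Pz m (fun n : ℕ => χ (n : ZMod m)) where
  pos := Nat.one_le_iff_ne_zero.2 (NeZero.ne m)
  per n := by simp
  nrm n := DirichletCharacter.norm_le_one χ _
  zer := by
    have h1 := MulChar.sum_eq_zero_of_ne_one hχ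
    rw [← h1]
    refine Finset.sum_nbij (fun n : ℕ => (n : ZMod m)) (fun n _ => Finset.mem_univ _) ?_ ?_
      (fun _ _ => rfl)
    · intro a ha b hb hab
      have ha : a < m := by simpa using ha
      have hb : b < m := by simpa using hb
      have h2 : ((a : ZMod m)).val = ((b : ZMod m)).val := congrArg ZMod.val hab
      rwa [ZMod.val_cast_of_lt ha, ZMod.val_cast_of_lt hb] at h2
    · intro a _
      refine ⟨a.val, ?_, ?_⟩
      · simp [ZMod.val_lt a]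
      · simp

theorem chi_L_ne_zero (hχ : χ ≠ 1) (L : ℂ)
    (hL : ∀ N : ℕ, ‖(∑ n ∈ Finset.Icc 1 N, χ (n : ZMod m) / n) - L‖ ≤ 2 * m / (N + 1)) :
    L ≠ 0 := by
  have hne := DirichletCharacter.LFunction_apply_one_ne_zero hχ
  -- the bound for `s = 1 + ε`
  have hbound : ∀ ε : ℝ, 0 < ε →
      ‖DirichletCharacter.LFunction χ ((1 + ε : ℝ) : ℂ) - L‖ ≤ 2 * m * ε := by
    intro ε hε
    have hs : 1 < (((1 + ε : ℝ) : ℂ)).re := by
      rw [Complex.ofReal_re]; linarith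
    rw [DirichletCharacter.LFunction_eq_LSeries χ hs]
    have hsum := (DirichletCharacter.LSeriesSummable_of_one_lt_re χ hs)
    have hts := hsum.hasSum.tendsto_sum_nat
    have hterm : ∀ n : ℕ, LSeries.term (fun n => χ (n : ZMod m)) ((1 + ε : ℝ) : ℂ) n =
        χ (n : ZMod m) / n * (((n : ℝ) ^ (-ε) : ℝ) : ℂ) := by
      intro n
      rcases Nat.eq_zero_or_pos n with h0 | h0
      · subst h0
        simp
      · have hn0 : (0 : ℝ) < n := by exact_mod_cast h0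
        rw [LSeries.term_of_ne_zero (by omega)]
        have e1 : (n : ℂ) ^ ((1 + ε : ℝ) : ℂ) = (((n : ℝ) ^ (1 + ε) : ℝ) : ℂ) := by
          rw [Complex.ofReal_cpow hn0.le]
          simp
        rw [e1]
        have e2 : (n : ℝ) ^ (1 + ε) = n * (n : ℝ) ^ ε := by
          rw [Real.rpow_add hn0, Real.rpow_one]
        have e3 : (n : ℝ) ^ (-ε) = ((n : ℝ) ^ ε)⁻¹ := Real.rpow_neg hn0.le ε
        have e4 : (((n : ℝ) ^ ε : ℝ) : ℂ) ≠ 0 := by
          rw [Complex.ofReal_ne_zero]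
          exact (Real.rpow_pos_of_pos hn0 ε).ne'
        have e5 : (n : ℂ) ≠ 0 := by
          exact_mod_cast h0.ne'
        rw [e2, e3, Complex.ofReal_mul, Complex.ofReal_inv, Complex.ofReal_natCast]
        field_simp
    have hS : ∀ N : ℕ, ∑ n ∈ Finset.range (N + 1),
        LSeries.term (fun n => χ (n : ZMod m)) ((1 + ε : ℝ) : ℂ) n =
        ∑ n ∈ Finset.Icc 1 N, χ (n : ZMod m) / n * (((n : ℝ) ^ (-ε) : ℝ) : ℂ) := by
      intro N
      simp_rw [hterm]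
      rw [Finset.range_eq_Ico, Finset.sum_eq_sum_Ico_succ_bot (by omega)]
      have : Finset.Ico (0 + 1) (N + 1) = Finset.Icc 1 N := by
        ext x
        simp only [Finset.mem_Ico, Finset.mem_Icc]
        omega
      rw [this]
      simp
    have hts' := (Filter.tendsto_add_atTop_iff_nat 1).2 hts
    have h3 : Filter.Tendsto (fun N : ℕ =>
        ‖∑ n ∈ Finset.Icc 1 N, χ (n : ZMod m) / n * (((n : ℝ) ^ (-ε) : ℝ) : ℂ) - L‖)
        Filter.atTop (nhds ‖LSeries (fun n => χ (n : ZMod m)) ((1 + ε : ℝ) : ℂ) - L‖) := by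
      refine (Filter.Tendsto.sub_const ?_ _).norm
      have : (fun N : ℕ => ∑ n ∈ Finset.Icc 1 N,
            χ (n : ZMod m) / n * (((n : ℝ) ^ (-ε) : ℝ) : ℂ)) =
          fun N : ℕ => ∑ n ∈ Finset.range (N + 1),
            LSeries.term (fun n => χ (n : ZMod m)) ((1 + ε : ℝ) : ℂ) n := by
        funext N
        exact (hS N).symm
      rw [this]
      exact hts'
    have h4 : Filter.Tendsto (fun N : ℕ => 2 * (m : ℝ) * ε + 2 * m / ((N : ℝ) + 1))
        Filter.atTop (nhds (2 * m * ε + 0)) := by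
      refine Filter.Tendsto.add tendsto_const_nhds ?_
      have := (tendsto_one_div_add_atTop_nhds_zero_nat (𝕜 := ℝ)).const_mul (2 * (m : ℝ))
      rw [mul_zero] at this
      refine this.congr fun N => ?_
      ring
    have h5 := le_of_tendsto_of_tendsto h3 h4 (by
      filter_upwards [Filter.eventually_ge_atTop 1] with N hN
      exact pz_partial (q := m) (c := fun n : ℕ => χ (n : ZMod m)) L hL ε hε N hN)
    rw [add_zero] at h5
    exact h5
  -- continuity at `1`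
  have hcont : Filter.Tendsto (fun k : ℕ =>
      ‖DirichletCharacter.LFunction χ ((1 + 1 / ((k : ℝ) + 1) : ℝ) : ℂ) - L‖) Filter.atTop
      (nhds ‖DirichletCharacter.LFunction χ 1 - L‖) := by
    refine (Filter.Tendsto.sub_const ?_ _).norm
    have hc : ContinuousAt (DirichletCharacter.LFunction χ) 1 :=
      (DirichletCharacter.differentiable_LFunction hχ 1).continuousAt
    refine hc.tendsto.comp ?_
    have h1 : Filter.Tendsto (fun k : ℕ => (1 + 1 / ((k : ℝ) + 1) : ℝ)) Filter.atTop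
        (nhds (1 + 0)) := Filter.Tendsto.add tendsto_const_nhds
          (tendsto_one_div_add_atTop_nhds_zero_nat (𝕜 := ℝ))
    rw [add_zero] at h1
    have h2 := (Complex.continuous_ofReal.tendsto 1).comp h1
    rw [Complex.ofReal_one] at h2
    exact h2
  have hzero : Filter.Tendsto (fun k : ℕ => 2 * (m : ℝ) * (1 / ((k : ℝ) + 1))) Filter.atTop
      (nhds 0) := by
    have := (tendsto_one_div_add_atTop_nhds_zero_nat (𝕜 := ℝ)).const_mul (2 * (m : ℝ))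
    rwa [mul_zero] at this
  have hle := le_of_tendsto_of_tendsto' hcont hzero (fun k => hbound _ (by positivity))
  have heq : DirichletCharacter.LFunction χ 1 = L :=
    sub_eq_zero.1 (norm_le_zero_iff.1 hle)
  intro hL0
  apply hne
  rw [heq, hL0]

theorem lone' (hχ : χ ≠ 1) : ∃ L : ℂ, L ≠ 0 ∧
    ∀ N : ℕ, ‖(∑ k ∈ Finset.Icc 1 N, χ (k : ZMod m) / k) - L‖ ≤ 2 * m / (N + 1) := by
  obtain ⟨L, hL⟩ := pz_exists_L (chi_pz χ hχ)
  exact ⟨L, chi_L_ne_zero χ hχ L hL, hL⟩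

end chi

theorem lone (m : ℕ) [NeZero m] (χ : DirichletCharacter ℂ m) (hχ : χ ≠ 1) :
    ∃ L : ℂ, L ≠ 0 ∧ ∀ N : ℕ, 1 ≤ N →
      ‖∑ k ∈ Finset.Icc 1 N, χ k / k - L‖ ≤ 2 * m / N := by
  obtain ⟨L, hL0, hL⟩ := lone' χ hχ
  refine ⟨L, hL0, fun N hN => (hL N).trans ?_⟩
  have hN0 : (0 : ℝ) < N := by exact_mod_cast hN
  gcongr
  linarith

theorem pz_log {q : ℕ} {c : ℕ → ℂ} (h : Pz q c) (N : ℕ) :
    ‖∑ n ∈ Finset.Icc 1 N, c n * (Real.log n : ℂ) / n‖ ≤ 2 * q := by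
  rcases Nat.eq_zero_or_pos N with h0 | h0
  · subst h0
    simp
  have key : ∀ N : ℕ, 1 ≤ N →
      ‖∑ n ∈ Finset.Icc 1 N, c n * (Real.log n : ℂ) / n -
        (∑ n ∈ Finset.Icc 1 N, c n) * ((Real.log N / N : ℝ) : ℂ)‖ ≤
        q * (2 - (Real.log N + 2) / N) := by
    intro N hN
    induction N, hN using Nat.le_induction with
    | base => simp
    | succ N hN ih =>
      rw [Finset.sum_Icc_succ_top (by omega), Finset.sum_Icc_succ_top (by omega)]
      have e1 : ∑ n ∈ Finset.Icc 1 N, c n * (Real.log n : ℂ) / n +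
          c (N + 1) * (Real.log ((N + 1 : ℕ) : ℝ) : ℂ) / ((N + 1 : ℕ) : ℂ) -
          (∑ n ∈ Finset.Icc 1 N, c n + c (N + 1)) *
            ((Real.log ((N + 1 : ℕ) : ℝ) / ((N + 1 : ℕ) : ℝ) : ℝ) : ℂ) =
          (∑ n ∈ Finset.Icc 1 N, c n * (Real.log n : ℂ) / n -
            (∑ n ∈ Finset.Icc 1 N, c n) * ((Real.log N / N : ℝ) : ℂ)) +
          (∑ n ∈ Finset.Icc 1 N, c n) *
            ((Real.log N / N - Real.log ((N + 1 : ℕ) : ℝ) / ((N + 1 : ℕ) : ℝ) : ℝ) : ℂ) := by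
        rw [Complex.ofReal_sub, Complex.ofReal_div, Complex.ofReal_div, Complex.ofReal_natCast,
          Complex.ofReal_natCast]
        ring
      rw [e1]
      refine (norm_add_le _ _).trans ?_
      rw [norm_mul, Complex.norm_real, Real.norm_eq_abs]
      have h1 := mul_le_mul (pz_bounded h N) (Pool.Agent.DL.mer_step N hN) (abs_nonneg _)
        (Nat.cast_nonneg q)
      have h2 : (q : ℝ) * (2 - (Real.log N + 2) / N) + q * ((Real.log N + 2) / N -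
          (Real.log ((N + 1 : ℕ) : ℝ) + 2) / ((N + 1 : ℕ) : ℝ)) =
          q * (2 - (Real.log ((N + 1 : ℕ) : ℝ) + 2) / ((N + 1 : ℕ) : ℝ)) := by ring
      linarith
  have hN0 : (0 : ℝ) < N := by exact_mod_cast h0
  have hlogN : 0 ≤ Real.log N := Real.log_nonneg (by exact_mod_cast h0)
  have h1 := key N h0
  have h2 := pz_bounded h N
  have e1 : ∑ n ∈ Finset.Icc 1 N, c n * (Real.log n : ℂ) / n =
      (∑ n ∈ Finset.Icc 1 N, c n * (Real.log n : ℂ) / n -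
        (∑ n ∈ Finset.Icc 1 N, c n) * ((Real.log N / N : ℝ) : ℂ)) +
      (∑ n ∈ Finset.Icc 1 N, c n) * ((Real.log N / N : ℝ) : ℂ) := by ring
  rw [e1]
  refine (norm_add_le _ _).trans ?_
  rw [norm_mul, Complex.norm_real, Real.norm_of_nonneg (show 0 ≤ Real.log N / N by positivity)]
  have h3 : ‖∑ n ∈ Finset.Icc 1 N, c n‖ * (Real.log N / N) ≤ q * (Real.log N / N) :=
    mul_le_mul_of_nonneg_right h2 (by positivity)
  have h4 : (q : ℝ) * (2 - (Real.log N + 2) / N) + q * (Real.log N / N) = 2 * q - q * (2 / N) := by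
    field_simp
    ring
  have h5 : 0 ≤ (q : ℝ) * (2 / N) := by positivity
  linarith

theorem logsum (m : ℕ) [NeZero m] (χ : DirichletCharacter ℂ m) (hχ : χ ≠ 1) :
    ∃ C : ℝ, ∀ N : ℕ, ‖∑ k ∈ Finset.Icc 1 N, χ k * (Real.log k : ℂ) / k‖ ≤ C :=
  ⟨2 * m, fun N => pz_log (chi_pz χ hχ) N⟩

/-- `Λ(n) χ(n) / n`. -/
noncomputable def cmF {m : ℕ} (χ : DirichletCharacter ℂ m) : ArithmeticFunction ℂ :=
  ⟨fun n => χ (n : ZMod m) * (vonMangoldt n : ℂ) / n, by simp⟩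

/-- `χ(n) / n`. -/
noncomputable def cmG {m : ℕ} (χ : DirichletCharacter ℂ m) : ArithmeticFunction ℂ :=
  ⟨fun n => χ (n : ZMod m) / n, by simp⟩

theorem cm_mul {m : ℕ} (χ : DirichletCharacter ℂ m) (n : ℕ) :
    (cmF χ * cmG χ) n = χ (n : ZMod m) * (Real.log n : ℂ) / n := by
  rw [ArithmeticFunction.mul_apply]
  have h1 : ∀ x ∈ n.divisorsAntidiagonal, cmF χ x.1 * cmG χ x.2 =
      χ (n : ZMod m) / n * (vonMangoldt x.1 : ℂ) := by
    intro x hx
    rw [Nat.mem_divisorsAntidiagonal] at hx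
    show χ (x.1 : ZMod m) * (vonMangoldt x.1 : ℂ) / x.1 * (χ (x.2 : ZMod m) / x.2) = _
    rw [← hx.1, Nat.cast_mul, map_mul]
    have hx1 : (x.1 : ℂ) ≠ 0 := by
      intro h2
      apply hx.2
      rw [← hx.1, Nat.cast_eq_zero.1 h2, zero_mul]
    have hx2 : (x.2 : ℂ) ≠ 0 := by
      intro h2
      apply hx.2
      rw [← hx.1, Nat.cast_eq_zero.1 h2, mul_zero]
    push_cast
    field_simp
  have h2 := Nat.sum_divisorsAntidiagonal (fun i _ => (vonMangoldt i : ℂ)) (n := n)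
  rw [Finset.sum_congr rfl h1, ← Finset.mul_sum]
  rw [h2, ← Complex.ofReal_sum, vonMangoldt_sum]
  ring

theorem cm_identity {m : ℕ} (χ : DirichletCharacter ℂ m) (N : ℕ) :
    ∑ n ∈ Finset.Icc 1 N, χ (n : ZMod m) * (Real.log n : ℂ) / n =
      ∑ k ∈ Finset.Icc 1 N, (χ (k : ZMod m) * (vonMangoldt k : ℂ) / k) *
        ∑ j ∈ Finset.Icc 1 (N / k), χ (j : ZMod m) / j := by
  have h1 := sum_Ioc_mul_eq_sum_sum (cmF χ) (cmG χ) N
  simp_rw [cm_mul χ] at h1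
  exact h1

theorem charmert (m : ℕ) [NeZero m] (χ : DirichletCharacter ℂ m) (hχ : χ ≠ 1) :
    ∃ C : ℝ, 0 ≤ C ∧ ∀ N : ℕ,
      ‖∑ k ∈ Finset.Icc 1 N, χ k * (vonMangoldt k : ℂ) / k‖ ≤ C := by
  obtain ⟨L, hL0, hL⟩ := lone' χ hχ
  have hLpos : 0 < ‖L‖ := norm_pos_iff.2 hL0
  have hlog4 : 0 ≤ Real.log 4 := Real.log_nonneg (by norm_num)
  set C1 : ℝ := (2 * m + 2 * m * (Real.log 4 + 4)) / ‖L‖ with hC1
  have hC1' : 0 ≤ C1 := by positivity
  refine ⟨C1, hC1', fun N => ?_⟩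
  rcases Nat.eq_zero_or_pos N with h0 | h0
  · subst h0
    simpa using hC1'
  have hN0 : (0 : ℝ) < N := by exact_mod_cast h0
  have h2 := pz_log (chi_pz χ hχ) N
  rw [cm_identity χ N] at h2
  have h3 : ‖∑ k ∈ Finset.Icc 1 N, (χ (k : ZMod m) * (vonMangoldt k : ℂ) / k) *
      ((∑ j ∈ Finset.Icc 1 (N / k), χ (j : ZMod m) / j) - L)‖ ≤ 2 * m * (Real.log 4 + 4) := by
    refine (norm_sum_le _ _).trans ?_
    have h4 : ∀ k ∈ Finset.Icc 1 N, ‖(χ (k : ZMod m) * (vonMangoldt k : ℂ) / k) *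
        ((∑ j ∈ Finset.Icc 1 (N / k), χ (j : ZMod m) / j) - L)‖ ≤
        vonMangoldt k * (2 * m / N) := by
      intro k hk
      rw [Finset.mem_Icc] at hk
      have hk0 : (0 : ℝ) < k := by exact_mod_cast hk.1
      have h5 : (N : ℝ) < k * ((N / k : ℕ) + 1) := by
        exact_mod_cast Nat.lt_mul_div_succ N hk.1
      have h6 := hL (N / k)
      have hΛ := vonMangoldt_nonneg (n := k)
      rw [norm_mul, norm_div, norm_mul, Complex.norm_real, Real.norm_of_nonneg hΛ,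
        Complex.norm_natCast]
      have h7 : 2 * (m : ℝ) / (((N / k : ℕ) : ℝ) + 1) ≤ 2 * m * k / N := by
        rw [div_le_div_iff₀ (by positivity) hN0]
        have : 2 * (m : ℝ) * N ≤ 2 * m * (k * ((N / k : ℕ) + 1)) :=
          mul_le_mul_of_nonneg_left h5.le (by positivity)
        linarith
      have h8 : ‖χ (k : ZMod m)‖ * vonMangoldt k / k ≤ vonMangoldt k / k := by
        refine div_le_div_of_nonneg_right ?_ hk0.le
        have := mul_le_mul_of_nonneg_right (DirichletCharacter.norm_le_one χ (k : ZMod m)) hΛ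
        linarith
      calc ‖χ (k : ZMod m)‖ * vonMangoldt k / k *
            ‖(∑ j ∈ Finset.Icc 1 (N / k), χ (j : ZMod m) / j) - L‖
          ≤ vonMangoldt k / k * (2 * m * k / N) := by
            refine mul_le_mul h8 (h6.trans h7) (norm_nonneg _) ?_
            positivity
        _ = vonMangoldt k * (2 * m / N) := by
            field_simp
    refine (Finset.sum_le_sum h4).trans ?_
    rw [← Finset.sum_mul]
    have h5 : ∑ k ∈ Finset.Icc 1 N, vonMangoldt k ≤ (Real.log 4 + 4) * N := by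
      have := Chebyshev.psi_le_const_mul_self (x := (N : ℝ)) hN0.le
      unfold Chebyshev.psi at this
      rw [Nat.floor_natCast] at this
      exact this
    calc (∑ k ∈ Finset.Icc 1 N, vonMangoldt k) * (2 * m / N)
        ≤ ((Real.log 4 + 4) * N) * (2 * m / N) :=
          mul_le_mul_of_nonneg_right h5 (by positivity)
      _ = 2 * m * (Real.log 4 + 4) := by field_simp
  have e1 : L * ∑ k ∈ Finset.Icc 1 N, (χ (k : ZMod m) * (vonMangoldt k : ℂ) / k) =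
      ∑ k ∈ Finset.Icc 1 N, (χ (k : ZMod m) * (vonMangoldt k : ℂ) / k) *
        (∑ j ∈ Finset.Icc 1 (N / k), χ (j : ZMod m) / j) -
      ∑ k ∈ Finset.Icc 1 N, (χ (k : ZMod m) * (vonMangoldt k : ℂ) / k) *
        ((∑ j ∈ Finset.Icc 1 (N / k), χ (j : ZMod m) / j) - L) := by
    rw [← Finset.sum_sub_distrib, Finset.mul_sum]
    refine Finset.sum_congr rfl fun k _ => ?_
    ring
  have h4 : ‖L‖ * ‖∑ k ∈ Finset.Icc 1 N, (χ (k : ZMod m) * (vonMangoldt k : ℂ) / k)‖ ≤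
      2 * m + 2 * m * (Real.log 4 + 4) := by
    rw [← norm_mul, e1]
    refine (norm_sub_le _ _).trans ?_
    linarith
  rw [hC1, le_div_iff₀ hLpos]
  linarith

end Pool.Agent.CYD
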