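import Pool.Agent.CYD.Defs
import Pool.Agent.Helper17.CY.Mert

/-!
CYD: Mertens for the weights `w`.
-/

set_option autoImplicit false

namespace Pool.Agent.CYD

open NumberField Finset

theorem mert (m : ℕ) (hm : 3 ≤ m) : ∃ C : ℝ, 0 ≤ C ∧ ∀ N : ℕ, 1 ≤ N →
    |∑ k ∈ Icc 1 N, w m k / k - Real.log N / 2| ≤ C := by
  obtain ⟨C, hC0, hC⟩ := Pool.Agent.Helper17.CY.mertens_one m (by omega)
  have hφ : 0 < m.totient := Nat.totient_pos.2 (by omega)
  have hφ0 : (0 : ℝ) < m.totient := by exact_mod_cast hφ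
  refine ⟨m.totient / 2 * C, by positivity, fun N hN => ?_⟩
  have h1 := hC N hN
  have h2 : 1 % m = 1 := Nat.mod_eq_of_lt (by omega)
  rw [h2] at h1
  have h3 : ∑ k ∈ Icc 1 N, w m k / k = m.totient / 2 *
      ∑ p ∈ (Icc 1 N).filter (fun p => p.Prime ∧ p % m = 1), Real.log p / p := by
    rw [Finset.mul_sum, Finset.sum_filter]
    refine Finset.sum_congr rfl fun k _ => ?_
    unfold w
    split_ifs <;> ring
  have h4 : ∑ k ∈ Icc 1 N, w m k / k - Real.log N / 2 = m.totient / 2 *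
      (∑ p ∈ (Icc 1 N).filter (fun p => p.Prime ∧ p % m = 1), Real.log p / p -
        Real.log N / m.totient) := by
    rw [h3]
    field_simp
  rw [h4, abs_mul, abs_of_pos (by positivity : (0 : ℝ) < m.totient / 2)]
  exact mul_le_mul_of_nonneg_left h1 (by positivity)

theorem wsq (m : ℕ) (N : ℕ) : ∑ k ∈ Icc 1 N, w m k * k ≤ (m.totient : ℝ) * N ^ 2 := by
  have h1 : ∑ k ∈ Icc 1 N, w m k * k ≤
      ∑ k ∈ (Icc 1 N).filter Nat.Prime, (m.totient : ℝ) / 2 * Real.log k * N := by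
    rw [Finset.sum_filter]
    refine Finset.sum_le_sum fun k hk => ?_
    rw [Finset.mem_Icc] at hk
    have hkN : (k : ℝ) ≤ N := by exact_mod_cast hk.2
    have hlog := Real.log_natCast_nonneg k
    unfold w
    by_cases hp : k.Prime
    · rw [if_pos hp]
      by_cases hm : k % m = 1
      · rw [if_pos ⟨hp, hm⟩]
        exact mul_le_mul_of_nonneg_left hkN (by positivity)
      · rw [if_neg (fun h => hm h.2), zero_mul]
        positivity
    · rw [if_neg hp, if_neg (fun h => hp h.1), zero_mul]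
  have h2 : ∑ k ∈ (Icc 1 N).filter Nat.Prime, Real.log k ≤ Real.log 4 * N := by
    have h3 := Chebyshev.theta_le_log4_mul_x (x := (N : ℝ)) (Nat.cast_nonneg N)
    unfold Chebyshev.theta at h3
    rw [Nat.floor_natCast] at h3
    exact h3
  have h4 : Real.log 4 ≤ 2 := by
    have h5 : (4 : ℝ) = 2 ^ 2 := by norm_num
    rw [h5, Real.log_pow]
    have := Real.log_two_lt_d9
    push_cast
    linarith
  have h6 : ∑ k ∈ (Icc 1 N).filter Nat.Prime, (m.totient : ℝ) / 2 * Real.log k * N =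
      (m.totient : ℝ) / 2 * N * ∑ k ∈ (Icc 1 N).filter Nat.Prime, Real.log k := by
    rw [Finset.mul_sum]
    refine Finset.sum_congr rfl fun k _ => ?_
    ring
  rw [h6] at h1
  have h7 : (m.totient : ℝ) / 2 * N * ∑ k ∈ (Icc 1 N).filter Nat.Prime, Real.log k ≤
      (m.totient : ℝ) / 2 * N * (2 * N) := by
    refine mul_le_mul_of_nonneg_left ?_ (by positivity)
    exact h2.trans (mul_le_mul_of_nonneg_right h4 (Nat.cast_nonneg N))
  calc ∑ k ∈ Icc 1 N, w m k * k ≤ _ := h1
    _ ≤ _ := h7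
    _ = (m.totient : ℝ) * N ^ 2 := by ring

end Pool.Agent.CYD
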