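import Pool.Agent.CYD.Defs

/-!
CYD, Spl: a prime `p ≡ 1 (mod m)` splits completely in the `m`-th cyclotomic field.
-/

set_option autoImplicit false

namespace Pool.Agent.CYD

open NumberField Finset

variable (K : Type*) [Field K] [NumberField K]

theorem spl (m : ℕ) (hm : 3 ≤ m) [IsCyclotomicExtension {m} ℚ K] (p : ℕ) (hp : p.Prime)
    (hpm : p % m = 1) :
    ∃ T : Finset (Ideal (𝓞 K)), T.card = m.totient ∧
      ∀ P ∈ T, P.IsPrime ∧ P ≠ ⊥ ∧ Ideal.absNorm P = p := by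
  classical
  have : NeZero m := ⟨by lia⟩
  have : Fact p.Prime := ⟨hp⟩
  have hndvd : ¬ p ∣ m := by
    intro h
    rcases (Nat.le_of_dvd (by lia) h).eq_or_lt with h1 | h1
    · rw [h1, Nat.mod_self] at hpm
      lia
    · rw [Nat.mod_eq_of_lt h1] at hpm
      exact hp.one_lt.ne' hpm
  have hp1 : (p : ZMod m) = 1 := by
    have h1 : (p : ZMod m) = ((1 : ℕ) : ZMod m) := by
      rw [ZMod.natCast_eq_natCast_iff', hpm, Nat.mod_eq_of_lt (by lia)]
    simpa using h1
  have hord : orderOf (p : ZMod m) = 1 := by rw [hp1, orderOf_one]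
  have hGal : IsGalois ℚ K := IsCyclotomicExtension.isGalois {m} ℚ K
  have hpp : (Ideal.span {(p : ℤ)}).IsPrime := by
    rw [Ideal.span_singleton_prime (by exact_mod_cast hp.ne_zero)]
    exact Nat.prime_iff_prime_int.mp hp
  have hfin : ((Ideal.span {(p : ℤ)}).primesOver (𝓞 K)).Finite :=
    Algebra.QuasiFinite.finite_primesOver _
  have hmain := Ideal.ncard_primesOver_mul_ramificationIdxIn_mul_inertiaDegIn
    (Ideal.span {(p : ℤ)}) (𝓞 K) Gal(K/ℚ)
  rw [IsCyclotomicExtension.Rat.ramificationIdxIn_eq_of_not_dvd p K hndvd,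
    IsCyclotomicExtension.Rat.inertiaDegIn_eq_of_not_dvd p K hndvd, hord, mul_one, mul_one,
    IsGaloisGroup.card_eq_finrank Gal(K/ℚ) ℚ K, IsCyclotomicExtension.Rat.finrank m K] at hmain
  refine ⟨hfin.toFinset, ?_, ?_⟩
  · rw [← hmain, Set.ncard_eq_toFinset_card _ hfin]
  · intro P hP
    obtain ⟨hP1, hP2⟩ := hfin.mem_toFinset.mp hP
    have hdeg := IsCyclotomicExtension.Rat.inertiaDeg_eq_of_not_dvd p K P hndvd
    rw [hord] at hdeg
    have hN := Ideal.natAbs_pow_inertiaDeg (p : ℤ) P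
    rw [hdeg, pow_one, Int.natAbs_natCast] at hN
    refine ⟨hP1, ?_, hN.symm⟩
    rintro rfl
    rw [Ideal.absNorm_bot] at hN
    exact hp.ne_zero hN

end Pool.Agent.CYD
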