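import Pool.Agent.CYD.Defs
import Pool.Agent.DL.Abel

/-!
CYD STEP: the analytic part of the induction step.
-/

set_option autoImplicit false

namespace Pool.Agent.CYD

open Finset

theorem step (w : ℕ → ℝ) (hw : ∀ k, 0 ≤ w k) (C : ℝ) (hC : 0 ≤ C)
    (hS : ∀ N : ℕ, 1 ≤ N → |∑ k ∈ Icc 1 N, w k / k - Real.log N / 2| ≤ C)
    (E : ℝ) (hE : 0 ≤ E) (hwE : ∀ N : ℕ, ∑ k ∈ Icc 1 N, w k * k ≤ E * N ^ 2)
    (Z : ℕ) (hZ : 4 ≤ Z) (hZ2 : 1 ≤ Real.log (Z / 4) / 2 - 2 * C)
    (c : ℝ) (hc : 0 < c) (hc2 : c * (√(1 + Real.log (2 * Z)) + 2 * C + E) ≤ 1 / (4 * Z))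
    (n : ℕ) (hn : Z ≤ n) (L : ℝ) (hL : 1 ≤ L) (V : ℝ) (D : ℕ → ℝ)
    (hD1 : ∀ p, w p ≠ 0 → p ≤ n / 2 → (n : ℝ) / 2 ≤ D p)
    (hD2 : ∀ p, w p ≠ 0 → p ≤ n / 2 →
      c * (n : ℝ) ^ 2 / (p * √(L * (Real.log (n / p) + L))) - c * p ≤ D p)
    (hV : ∑ p ∈ Icc 1 (n / 2), w p * D p ≤ V * (Real.log n + L)) :
    c * (n : ℝ) ^ 2 / √(L * (Real.log n + L)) ≤ V := by
  set N := n / Z with hN
  have hZ0 : 0 < Z := by omega
  have hN1 : 1 ≤ N := (Nat.one_le_div_iff hZ0).2 hn
  have hn4 : 4 ≤ n := le_trans hZ hn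
  have hNn : N ≤ n / 2 := Nat.div_le_div_left (by omega) (by norm_num)
  have hnpos : (0 : ℝ) < n := by exact_mod_cast (by omega : 0 < n)
  have hn1r : (1 : ℝ) ≤ n := by exact_mod_cast (by omega : 1 ≤ n)
  have hZr : (4 : ℝ) ≤ Z := by exact_mod_cast hZ
  have hZp : (0 : ℝ) < Z := by linarith
  have hNr : (1 : ℝ) ≤ N := by exact_mod_cast hN1
  have hlogn : 0 ≤ Real.log n := Real.log_nonneg hn1r
  set A := Real.log n + L with hA
  have hA1 : 1 ≤ A := by linarith
  have hL0 : 0 < L := by linarith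
  have hsL : 1 ≤ √L := by
    rw [show (1 : ℝ) = √1 by simp]
    exact Real.sqrt_le_sqrt hL
  have hsA : 0 < √A := Real.sqrt_pos.2 (by linarith)
  -- splitting the sum
  have hsplit : Icc 1 (n / 2) = Icc 1 N ∪ Ioc N (n / 2) := by
    ext p
    simp only [Finset.mem_union, Finset.mem_Icc, Finset.mem_Ioc]
    omega
  have hdisj : Disjoint (Icc 1 N) (Ioc N (n / 2)) := by
    rw [Finset.disjoint_left]
    intro p h1 h2
    simp only [Finset.mem_Icc, Finset.mem_Ioc] at h1 h2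
    omega
  have hV' := hV
  rw [hsplit, Finset.sum_union hdisj] at hV'
  -- the first sum
  have hfirst : c * n ^ 2 / √L * (√A - √(Real.log (2 * Z) + L) - 2 * C) - c * E * n ^ 2 ≤
      ∑ p ∈ Icc 1 N, w p * D p := by
    have hab := Pool.Agent.DL.abel (fun k => w k / k) C hC hS Z n (by omega) hn L hL
    have h1 : c * n ^ 2 / √L * ∑ k ∈ Icc 1 (n / Z), w k / k / √(Real.log (n / k) + L) -
        c * ∑ k ∈ Icc 1 N, w k * k ≤ ∑ p ∈ Icc 1 N, w p * D p := by
      rw [Finset.mul_sum, Finset.mul_sum, ← Finset.sum_sub_distrib]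
      apply Finset.sum_le_sum
      intro p hp
      rw [Finset.mem_Icc] at hp
      obtain ⟨hp0, hpN⟩ := hp
      have hp0r : (0 : ℝ) < p := by exact_mod_cast hp0
      by_cases hwp : w p = 0
      · simp [hwp]
      have h2 := mul_le_mul_of_nonneg_left (hD2 p hwp (by omega)) (hw p)
      refine le_trans (le_of_eq ?_) h2
      have hle : (1 : ℝ) ≤ n / p := by
        rw [le_div_iff₀ hp0r, one_mul]
        exact_mod_cast (by omega : p ≤ n)
      have hpos : 0 ≤ Real.log (n / p) + L := by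
        have := Real.log_nonneg hle
        linarith
      rw [Real.sqrt_mul hL0.le]
      have hs1 : √L ≠ 0 := by positivity
      have hs2 : √(Real.log (n / p) + L) ≠ 0 := by
        have := Real.log_nonneg hle
        exact (Real.sqrt_pos.2 (by linarith)).ne'
      field_simp
    have h3 : c * ∑ k ∈ Icc 1 N, w k * k ≤ c * E * n ^ 2 := by
      have h4 : (N : ℝ) ≤ n := by exact_mod_cast (by omega : N ≤ n)
      have h5 : E * (N : ℝ) ^ 2 ≤ E * n ^ 2 := by gcongr
      have h6 := (hwE N).trans h5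
      have := mul_le_mul_of_nonneg_left h6 hc.le
      linarith
    have h7 : c * n ^ 2 / √L * (√A - √(Real.log (2 * Z) + L) - 2 * C) ≤
        c * n ^ 2 / √L * ∑ k ∈ Icc 1 (n / Z), w k / k / √(Real.log (n / k) + L) :=
      mul_le_mul_of_nonneg_left hab (by positivity)
    linarith
  -- the second sum
  have hsecond : (n : ℝ) / 2 * N ≤ ∑ p ∈ Ioc N (n / 2), w p * D p := by
    have h1 : ∑ p ∈ Ioc N (n / 2), (n : ℝ) / 2 * N * (w p / p) ≤
        ∑ p ∈ Ioc N (n / 2), w p * D p := by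
      apply Finset.sum_le_sum
      intro p hp
      rw [Finset.mem_Ioc] at hp
      obtain ⟨hpN, hpn⟩ := hp
      have hp0r : (0 : ℝ) < p := by exact_mod_cast (by omega : 0 < p)
      have hNp : (N : ℝ) ≤ p := by exact_mod_cast (by omega : N ≤ p)
      by_cases hwp : w p = 0
      · simp [hwp]
      have h2 := mul_le_mul_of_nonneg_left (hD1 p hwp hpn) (hw p)
      refine le_trans ?_ h2
      have h3 : (N : ℝ) / p ≤ 1 := (div_le_one hp0r).2 hNp
      calc (n : ℝ) / 2 * N * (w p / p) = w p * (n / 2) * (N / p) := by ring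
        _ ≤ w p * (n / 2) * 1 := mul_le_mul_of_nonneg_left h3 (by
            have := hw p
            positivity)
        _ = w p * (n / 2) := mul_one _
    refine le_trans ?_ h1
    rw [← Finset.mul_sum]
    have h2 : ∑ p ∈ Ioc N (n / 2), w p / (p : ℝ) =
        ∑ p ∈ Icc 1 (n / 2), w p / (p : ℝ) - ∑ p ∈ Icc 1 N, w p / (p : ℝ) := by
      rw [hsplit, Finset.sum_union hdisj]
      ring
    rw [h2]
    have h3 := abs_le.1 (hS (n / 2) (by omega))
    have h4 := abs_le.1 (hS N hN1)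
    have h5 : Real.log (Z / 4) ≤ Real.log ((n / 2 : ℕ) : ℝ) - Real.log N := by
      have hn1 : (0 : ℝ) < ((n / 2 : ℕ) : ℝ) := by exact_mod_cast (by omega : 0 < n / 2)
      rw [← Real.log_div hn1.ne' (by positivity)]
      apply Real.log_le_log (by positivity)
      rw [div_le_div_iff₀ (by norm_num) (by positivity)]
      have h6 : N * Z ≤ n := Nat.div_mul_le_self n Z
      have h7 : Z * N ≤ (n / 2) * 4 := by
        rw [mul_comm]
        omega
      exact_mod_cast h7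
    have h6 : 1 ≤ ∑ p ∈ Icc 1 (n / 2), w p / (p : ℝ) - ∑ p ∈ Icc 1 N, w p / (p : ℝ) := by
      linarith [h3.1, h4.2]
    have h7 : 0 ≤ (n : ℝ) / 2 * N := by positivity
    exact le_mul_of_one_le_right h7 h6
  -- conclusion
  have hNn2 : (n : ℝ) ^ 2 * (1 / (4 * Z)) ≤ (n : ℝ) / 2 * N := by
    have h1 : n < Z * (N + 1) := by
      rw [hN]
      exact Nat.lt_mul_div_succ n hZ0
    have h2 : n ≤ 2 * Z * N := by
      have h3 : Z * 1 ≤ Z * N := Nat.mul_le_mul_left _ hN1
      have h4 : Z * (N + 1) = Z * N + Z := by ring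
      have h5 : 2 * Z * N = Z * N + Z * N := by ring
      omega
    have h3 : (n : ℝ) ≤ 2 * Z * N := by exact_mod_cast h2
    rw [mul_one_div, div_le_iff₀ (by positivity)]
    have h4 := mul_le_mul_of_nonneg_left h3 hnpos.le
    have h5 : (n : ℝ) ^ 2 = n * n := by ring
    have h6 : (n : ℝ) / 2 * N * (4 * Z) = n * (2 * Z * N) := by ring
    rw [h5, h6]
    exact h4
  have hlog2Z : 0 ≤ Real.log (2 * Z) := Real.log_nonneg (by linarith)
  have herr : c * n ^ 2 / √L * (√(Real.log (2 * Z) + L) + 2 * C) + c * E * n ^ 2 ≤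
      n ^ 2 * (1 / (4 * Z)) := by
    have h1 : √(Real.log (2 * Z) + L) ≤ √L * √(1 + Real.log (2 * Z)) := by
      rw [← Real.sqrt_mul hL0.le]
      apply Real.sqrt_le_sqrt
      have := mul_le_mul_of_nonneg_right hL hlog2Z
      linarith
    have h2 : 2 * C ≤ √L * (2 * C) := by
      have := mul_le_mul_of_nonneg_right hsL (by linarith : (0 : ℝ) ≤ 2 * C)
      linarith
    have h3 : √(Real.log (2 * Z) + L) + 2 * C ≤ √L * (√(1 + Real.log (2 * Z)) + 2 * C) := by
      linarith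
    have h4 : c * n ^ 2 / √L * (√(Real.log (2 * Z) + L) + 2 * C) ≤
        c * n ^ 2 / √L * (√L * (√(1 + Real.log (2 * Z)) + 2 * C)) :=
      mul_le_mul_of_nonneg_left h3 (by positivity)
    have h5 : c * n ^ 2 / √L * (√L * (√(1 + Real.log (2 * Z)) + 2 * C)) =
        n ^ 2 * (c * (√(1 + Real.log (2 * Z)) + 2 * C)) := by
      have : √L ≠ 0 := by positivity
      field_simp
    rw [h5] at h4
    have h6 := mul_le_mul_of_nonneg_left hc2 (by positivity : (0 : ℝ) ≤ n ^ 2)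
    linarith
  have hmain : c * n ^ 2 / √L * √A ≤ V * A := by
    have h1 : c * n ^ 2 / √L * (√A - √(Real.log (2 * Z) + L) - 2 * C) =
        c * n ^ 2 / √L * √A - c * n ^ 2 / √L * (√(Real.log (2 * Z) + L) + 2 * C) := by ring
    rw [h1] at hfirst
    linarith
  rw [Real.sqrt_mul hL0.le]
  have hAA : √A * √A = A := Real.mul_self_sqrt (by linarith)
  have h9 : c * (n : ℝ) ^ 2 / (√L * √A) = c * n ^ 2 / √L * √A / A := by
    have h10 : √A / A = 1 / √A := by
      rw [div_eq_div_iff (by linarith) hsA.ne', one_mul, hAA]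
    have h11 : √L ≠ 0 := by positivity
    have h12 : c * (n : ℝ) ^ 2 / √L * √A / A = c * n ^ 2 / √L * (√A / A) := by ring
    rw [h12, h10]
    field_simp
  rw [h9, div_le_iff₀ (by linarith)]
  exact hmain

end Pool.Agent.CYD
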